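import Pool.Agent.J6H43.KS.Ac0

/-!
# Separators of the Kolmogorov-simple satisfiable formulas: structure and lower bounds
-/

set_option autoImplicit false
set_option maxHeartbeats 4000000

namespace Pool.Agent.J6H43.KS

open Pool.Agent.NPC hiding SAT
open Pool.Agent.H695R2 Pool.Agent.H695R2.IsoImp Pool.Agent.J6H27.KS Turing Filter
open DomAC0 H568R2

theorem not_inAC0 {S : Set (List Bool)}
    (hS : ∀ᶠ n in atTop, ∀ x : List Bool, x.length = n → (padD x ∈ S ↔ x ∈ SAT)) : ¬ InAC0 S := by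
  rintro ⟨j, k, hjk⟩
  have h1 := ac0 hS j
  obtain ⟨h, h2, h3, h4⟩ := (h1.and ((pow_le_two_pow ((8 * j + 11) * k + 1)).and
    (eventually_ge_atTop (k + 2)))).exists
  obtain ⟨L, h5, h6, h7⟩ := h2
  obtain ⟨C, hd, hs, hC⟩ := hjk L
  have h8 := h7 C hd hC
  have h9 : L ^ k ≤ h ^ ((8 * j + 11) * k) := by
    have := Nat.pow_le_pow_left h6 k
    rwa [← pow_mul] at this
  have h10 : 1 ≤ h ^ ((8 * j + 11) * k) := Nat.one_le_pow _ _ (by omega)
  rw [pow_succ] at h3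
  generalize h ^ ((8 * j + 11) * k) = M at h3 h9 h10
  have h12 : M * (k + 2) ≤ M * h := Nat.mul_le_mul_left _ h4
  nlinarith

theorem agree_of_sep {A S : Set (List Bool)} (h1 : A ∩ SAT ⊆ S) (h2 : S ∩ SATᶜ = ∅) :
    Agree A S := by
  intro x hx
  constructor
  · intro h
    by_contra hn
    have : x ∈ S ∩ SATᶜ := ⟨h, hn⟩
    rw [h2] at this
    exact this
  · intro h
    exact h1 ⟨hx, h⟩

theorem conclusion {U : Mach} {c : ℕ}
    (hU : ∀ M : Mach, ∃ (code : List Bool → List Bool) (d : ℕ) (q : Polynomial ℕ),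
      (∀ y, (code y).length ≤ c * y.length + d) ∧
      ∀ y x t, M.Outputs y x t → U.Outputs (code y) x (q.eval (y.length + t)))
    {g G : ℕ → ℕ}
    (hg : ∀ᶠ n in atTop, (4 * c + 1) * Nat.log 2 (Nat.log 2 (Nat.log 2 n)) ≤ g n)
    (hG : ∀ k : ℕ, ∀ᶠ n in atTop, n ^ k ≤ G n) : Conclusion (K U g G) := by
  have key : ∀ S : Set (List Bool), InP S → Agree (K U g G) S →
      ∀ᶠ n in atTop, ∀ x : List Bool, x.length = n → (padD x ∈ S ↔ x ∈ SAT) :=
    fun S hS hA => agree_padD (agree_pad hU hg hG hS hA)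
  have hfin : ∀ S : Set (List Bool), InP S → Agree (K U g G) S →
      {x | ¬ (padD x ∈ S ↔ x ∈ SAT)}.Finite := by
    intro S hS hA
    obtain ⟨n₀, h₀⟩ := eventually_atTop.1 (key S hS hA)
    refine (List.finite_length_lt Bool n₀).subset fun x hx => ?_
    rw [Set.mem_setOf_eq]
    by_contra hlt
    exact hx (h₀ x.length (by omega) x rfl)
  have htr : ∀ F : Set (Set (List Bool)), PadClosed F → ∀ S ∈ F, InP S → Agree (K U g G) S →
      PEqNP ∧ SAT ∈ F := by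
    intro F hF S hSF hS hA
    refine ⟨peqnp_of_separable hU hg hG (sep_of_agree hS hA), ?_⟩
    refine hF.fin _ (hF.pad S hSF) SAT ((hfin S hS hA).subset fun x hx => ?_)
    rw [Set.mem_setOf_eq] at hx ⊢
    exact fun h => hx h.symm
  have hback : ∀ F : Set (Set (List Bool)), PEqNP ∧ SAT ∈ F →
      ∃ S ∈ F, InP S ∧ K U g G ∩ SAT ⊆ S ∧ S ∩ SATᶜ = ∅ := fun F h =>
    ⟨SAT, h.2, (h.1 SAT).2 inNP_SAT, Set.inter_subset_right, Set.inter_compl_self _⟩
  refine ⟨hfin, fun S hS hA j => ac0 (key S hS hA) j, fun S hS hA => ?_, ?_, fun F hF => ⟨⟨?_, ?_⟩,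
    ⟨?_, hback F⟩⟩⟩
  · filter_upwards [comm (key S hS hA)] with r hr
    obtain ⟨a, b, h1, h2⟩ := hr
    exact ⟨a, b, h1, h2 _ (covers_ncard S a b), h2⟩
  · rintro ⟨S, hS, hS0, h1, h2⟩
    exact not_inAC0 (key S hS (agree_of_sep h1 h2)) hS0
  · rintro ⟨S, hSF, hS, hA⟩
    exact htr F hF S hSF hS hA
  · intro h
    obtain ⟨S, hSF, hS, h1, h2⟩ := hback F h
    exact ⟨S, hSF, hS, agree_of_sep h1 h2⟩
  · rintro ⟨S, hSF, hS, h1, h2⟩
    exact htr F hF S hSF hS (agree_of_sep h1 h2)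

end Pool.Agent.J6H43.KS
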