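import Pool.Agent.J6H43.KS.Junta

/-!
# Separators need exponentially large circuits of constant depth
-/

set_option autoImplicit false
set_option maxHeartbeats 4000000

namespace Pool.Agent.J6H43.KS

open Pool.Agent.NPC hiding SAT
open Pool.Agent.H695R2 Pool.Agent.H695R2.IsoImp Pool.Agent.J6H27.KS Turing Filter
open DomAC0 H568R2

theorem pow_le_two_pow (K : ℕ) : ∀ᶠ h : ℕ in atTop, h ^ K ≤ 2 ^ h := by
  have h1 := tendsto_pow_const_div_const_pow_of_one_lt K (r := (2 : ℝ)) (by norm_num)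
  have h2 := h1.eventually (gt_mem_nhds (show (0 : ℝ) < 1 by norm_num))
  filter_upwards [h2] with h h3
  rw [div_lt_one (by positivity)] at h3
  exact_mod_cast h3.le

theorem rr_le {j h : ℕ} (hh : 1000 ≤ h) : rr j h ≤ h ^ (2 * j + 2) := by
  have e1 : 24 * (4 * h) ≤ h ^ 2 := by nlinarith
  have e2 : (24 * (4 * h)) ^ j ≤ h ^ (2 * j) := by
    rw [pow_mul]
    exact Nat.pow_le_pow_left e1 j
  have e3 : 1 ≤ h ^ (2 * j) := Nat.one_le_pow _ _ (by omega)
  unfold rr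
  calc 2 * (4 * h) * (24 * (4 * h)) ^ j + 1 ≤ 8 * h * h ^ (2 * j) + h * h ^ (2 * j) := by
        have f1 := Nat.mul_le_mul_left (8 * h) e2
        have f2 : 1 ≤ h * h ^ (2 * j) := Nat.mul_le_mul (show 1 ≤ h by omega) e3
        have f3 : 2 * (4 * h) = 8 * h := by ring
        rw [f3]
        omega
    _ = 9 * (h * h ^ (2 * j)) := by ring
    _ ≤ h * (h * h ^ (2 * j)) := Nat.mul_le_mul_right _ (by omega)
    _ = h ^ (2 * j + 2) := by ring

theorem PL_rr_le {j h : ℕ} (hh : 1000 ≤ h) : PL (rr j h) ≤ h ^ (4 * j + 5) := by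
  have e1 := PL_le (rr j h) (by unfold rr; omega)
  have e2 := Nat.pow_le_pow_left (rr_le (j := j) hh) 2
  calc PL (rr j h) ≤ 400 * rr j h ^ 2 := e1
    _ ≤ 400 * (h ^ (2 * j + 2)) ^ 2 := Nat.mul_le_mul_left _ e2
    _ ≤ h * (h ^ (2 * j + 2)) ^ 2 := Nat.mul_le_mul_right _ (by omega)
    _ = h ^ (4 * j + 5) := by ring

theorem LL_le {j h : ℕ} (hh : 1000 ≤ h) : LL j h ≤ h ^ (8 * j + 11) := by
  have e1 := Nat.pow_le_pow_left (PL_rr_le (j := j) hh) 2
  have e0 : 2 ≤ PL (rr j h) := by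
    unfold PL
    omega
  have e2 : D (PL (rr j h)) ≤ PL (rr j h) ^ 2 := D_le e0
  have e3 : PL (rr j h) ≤ PL (rr j h) ^ 2 := by nlinarith
  rw [← pow_mul] at e1
  unfold LL
  calc 8 * D (PL (rr j h)) + PL (rr j h) ≤ 9 * PL (rr j h) ^ 2 := by omega
    _ ≤ 9 * h ^ ((4 * j + 5) * 2) := Nat.mul_le_mul_left _ e1
    _ ≤ h * h ^ ((4 * j + 5) * 2) := Nat.mul_le_mul_right _ (by omega)
    _ = h ^ (8 * j + 11) := by ring

theorem le_rr {j h : ℕ} : h ≤ rr j h := by
  unfold rr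
  rcases Nat.eq_zero_or_pos h with h0 | h0
  · omega
  · have : 1 ≤ (24 * (4 * h)) ^ j := Nat.one_le_pow _ _ (by omega)
    nlinarith

theorem le_LL {j h : ℕ} : h ≤ LL j h := by
  have h1 := le_PL (rr j h)
  have h2 := le_rr (j := j) (h := h)
  unfold LL
  omega

/-- If `S` decides `SAT` after padding, then circuits of constant depth for `S` are exponentially
large. -/
theorem ac0 {S : Set (List Bool)}
    (hS : ∀ᶠ n in atTop, ∀ x : List Bool, x.length = n → (padD x ∈ S ↔ x ∈ SAT)) (j : ℕ) :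
    ∀ᶠ h in atTop, ∃ L : ℕ, h ≤ L ∧ L ≤ h ^ (8 * j + 11) ∧
      ∀ C : Circuit (Fin L), C.depth ≤ j → Computes C S → 2 ^ h ≤ C.size := by
  obtain ⟨n₀, h₀⟩ := eventually_atTop.1 hS
  filter_upwards [pow_le_two_pow ((8 * j + 11) + 2 + 2 * j),
    eventually_ge_atTop (1000 + n₀ + j)] with h h1 h2
  refine ⟨LL j h, le_LL, LL_le (by omega), fun C hd hC => ?_⟩
  refine size_ge (by omega) (h₀ _ ?_) ?_ C hd hC
  · have e1 := le_PL (rr j h)
    have e2 := le_rr (j := j) (h := h)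
    omega
  · have e1 := LL_le (j := j) (show 1000 ≤ h by omega)
    generalize 8 * j + 11 = K at e1 h1
    have e2 : LL j h + 1 ≤ h ^ (K + 1) := by
      have f1 : 1 ≤ h ^ K := Nat.one_le_pow _ _ (by omega)
      calc LL j h + 1 ≤ h ^ K + h ^ K := by omega
        _ = 2 * h ^ K := by ring
        _ ≤ h * h ^ K := Nat.mul_le_mul_right _ (by omega)
        _ = h ^ (K + 1) := by ring
    have e3 : (96 * h) ^ j ≤ h ^ (2 * j) := by
      rw [pow_mul]
      exact Nat.pow_le_pow_left (by nlinarith) j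
    calc j * (LL j h + 1) * (96 * h) ^ j ≤ h * h ^ (K + 1) * h ^ (2 * j) :=
          Nat.mul_le_mul (Nat.mul_le_mul (by omega) e2) e3
      _ = h ^ (K + 2 + 2 * j) := by ring
      _ ≤ 2 ^ h := h1
      _ ≤ 2 ^ (2 * h) := Nat.pow_le_pow_right (by norm_num) (by omega)

end Pool.Agent.J6H43.KS
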