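import Pool.Agent.J6H43.KS.Exact

/-!
# The search for counterexamples, with advice
-/

set_option autoImplicit false
set_option maxHeartbeats 4000000

namespace Pool.Agent.J6H43.KS

open Pool.Agent.NPC hiding SAT
open Pool.Agent.H695R2 Pool.Agent.H695R2.IsoImp Pool.Agent.J6H27.KS Turing Filter
open Pool.Agent.H660R2.NX

section

variable (V : List Bool → List Bool) (p : Polynomial ℕ) (T : List Bool × List Bool → Bool)
  (FA : (List Unit × List Bool) × List Bool → BF) (PA : Polynomial ℕ)

/-- the test with advice `w` -/
def sA (U : List Unit) (w : List Bool) (ψ : BF) : Bool := T (w, bits (padE (PA.eval U.length) ψ))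

/-- the result of the search for a certificate for `a` -/
def resA' (x : (List Unit × List Bool) × List Bool) : List Bool :=
  (stp (fun q => sA T PA x.1.1 x.1.2 (FA ((x.1.1, x.2), q))))^[lenA p (x.1.1, x.2)] []

/-- the algorithm: input `((U, w), a)` -/
def algA' (x : (List Unit × List Bool) × List Bool) : Bool :=
  WA V p ((x.1.1, x.2), resA' p T FA PA x)

/-- `z` codes a counterexample to the correctness of the algorithm, with a certificate. -/
def WB' (x : (List Unit × List Bool) × List Bool) : Bool :=
  (unbits (List Bool × List Bool) (strip x.2)).elim false (fun q =>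
    decide (q.1.length ≤ x.1.1.length) && (decide (q.2.length = lenA p (x.1.1, q.1)) &&
      (WA V p ((x.1.1, q.1), q.2) && !(algA' V p T FA PA (x.1, q.1)))))

variable (FB : (List Unit × List Bool) × List Bool → BF) (PB : Polynomial ℕ)

/-- the result of the search for a counterexample, input `(U, (wA, wB))` -/
def resB' (x : List Unit × (List Bool × List Bool)) : List Bool :=
  (stp (fun q => sA T PB x.1 x.2.2 (FB ((x.1, x.2.1), q))))^[lenB p x.1] []

/-- the counterexample found -/
def ce' (x : List Unit × (List Bool × List Bool)) : List Bool :=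
  (unbits (List Bool × List Bool) (strip (resB' p T FB PB x))).elim [] Prod.fst

/-- the formulas on which the test must be wrong if there is a counterexample, before padding;
input `(U, ((wA, wB), τ))` -/
def preB (x : List Unit × ((List Bool × List Bool) × List Bool)) : BF :=
  FB ((x.1, x.2.1.1), resB' p T FB PB (x.1, x.2.1) ++ x.2.2)

/-- the formulas of the other kind, before padding -/
def preA (x : List Unit × ((List Bool × List Bool) × List Bool)) : BF :=
  FA ((x.1, ce' p T FB PB (x.1, x.2.1)),
    resA' p T FA PA ((x.1, x.2.1.1), ce' p T FB PB (x.1, x.2.1)) ++ x.2.2)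

/-- the formulas, input `(U, (b, ((wA, wB), τ)))` -/
def hard' (x : List Unit × (Bool × ((List Bool × List Bool) × List Bool))) : BF :=
  if x.2.1 = true then padE (PB.eval x.1.length) (preB p T FB PB (x.1, x.2.2))
  else padE (PA.eval x.1.length) (preA p T FA PA FB PB (x.1, x.2.2))

variable {V p T FA PA FB PB}

theorem poly_sA {α : Type} [TEnc α] (hT : Poly T) {U : α → List Unit} {w : α → List Bool}
    {ψ : α → BF} (hU : Poly U) (hw : Poly w) (hψ : Poly ψ) :
    Poly (fun a => sA T PA (U a) (w a) (ψ a)) := by
  unfold sA
  have h1 : Poly (fun a => padE (PA.eval (U a).length) (ψ a)) :=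
    poly_padE (UPoly.eval (UPoly.length hU) PA) hψ
  have h0 : PC (bits : BF → List Bool) (fun x : List Bool => x) (fun φ => bits φ) := by
    obtain ⟨c, p, h⟩ := PC.id (ea := (bits : BF → List Bool))
    exact ⟨c, p, h⟩
  have h2 : Poly (fun φ : BF => (bits φ : List Bool)) :=
    PC.comp (g := fun x => x) (f := fun φ : BF => (bits φ : List Bool)) PC.rawIn h0
  exact hT.comp (Poly.pair hw (h2.comp h1))

theorem poly_resA' (hT : Poly T) (hFA : Poly FA) : Poly (resA' p T FA PA) := by
  unfold resA'
  refine poly_search (t := fun (x : (List Unit × List Bool) × List Bool) q =>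
    sA T PA x.1.1 x.1.2 (FA ((x.1.1, x.2), q))) ?_ ?_
  · refine poly_sA hT (by fun_prop) (by fun_prop) ?_
    exact hFA.comp (g := FA) (f := fun x : ((List Unit × List Bool) × List Bool) × List Bool =>
      ((x.1.1.1, x.1.2), x.2)) (by fun_prop)
  · exact (upoly_lenA p).comp (f := fun x : (List Unit × List Bool) × List Bool => (x.1.1, x.2))
      (by fun_prop)

theorem poly_algA' (hV : Poly V) (hT : Poly T) (hFA : Poly FA) : Poly (algA' V p T FA PA) := by
  unfold algA'
  exact (poly_WA V p hV).comp (Poly.pair (by fun_prop) (poly_resA' hT hFA))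

theorem poly_WB' (hV : Poly V) (hT : Poly T) (hFA : Poly FA) : Poly (WB' V p T FA PA) := by
  have h1 : Poly (fun x : (List Unit × List Bool) × List Bool =>
      unbits (List Bool × List Bool) (strip x.2)) :=
    poly_unbits.comp (poly_strip.comp (Poly.snd Poly.id))
  have h2 : Poly (fun x : ((List Unit × List Bool) × List Bool) × (List Bool × List Bool) =>
      lenA p (x.1.1.1, x.2.1)) :=
    ((upoly_lenA p).comp (f := fun x : ((List Unit × List Bool) × List Bool) ×
      (List Bool × List Bool) => (x.1.1.1, x.2.1)) (by fun_prop)).toPoly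
  have h3 : Poly (fun x : ((List Unit × List Bool) × List Bool) × (List Bool × List Bool) =>
      WA V p ((x.1.1.1, x.2.1), x.2.2)) :=
    (poly_WA V p hV).comp (f := fun x : ((List Unit × List Bool) × List Bool) ×
      (List Bool × List Bool) => ((x.1.1.1, x.2.1), x.2.2)) (by fun_prop)
  have h4 : Poly (fun x : ((List Unit × List Bool) × List Bool) × (List Bool × List Bool) =>
      algA' V p T FA PA (x.1.1, x.2.1)) :=
    (poly_algA' hV hT hFA).comp (f := fun x : ((List Unit × List Bool) × List Bool) ×
      (List Bool × List Bool) => (x.1.1, x.2.1)) (by fun_prop)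
  unfold WB'
  refine Poly.optElim (h := fun (x : (List Unit × List Bool) × List Bool)
    (q : List Bool × List Bool) =>
    decide (q.1.length ≤ x.1.1.length) && (decide (q.2.length = lenA p (x.1.1, q.1)) &&
      (WA V p ((x.1.1, q.1), q.2) && !(algA' V p T FA PA (x.1, q.1))))) h1 (NPC.Poly.const _) ?_
  exact Poly.and (by fun_prop) (Poly.and (Poly.dec_eq (by fun_prop) h2)
    (Poly.and h3 (Poly.not h4)))

theorem poly_resB' (hT : Poly T) (hFB : Poly FB) : Poly (resB' p T FB PB) := by
  unfold resB'
  refine poly_search (t := fun (x : List Unit × (List Bool × List Bool)) q =>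
    sA T PB x.1 x.2.2 (FB ((x.1, x.2.1), q))) ?_ ?_
  · refine poly_sA hT (by fun_prop) (by fun_prop) ?_
    exact hFB.comp (g := FB) (f := fun x : (List Unit × (List Bool × List Bool)) × List Bool =>
      ((x.1.1, x.1.2.1), x.2)) (by fun_prop)
  · exact (upoly_lenB (p := p)).comp (f := fun x : List Unit × (List Bool × List Bool) => x.1)
      (by fun_prop)

theorem poly_ce' (hT : Poly T) (hFB : Poly FB) : Poly (ce' p T FB PB) := by
  unfold ce'
  exact Poly.optElim (h := fun _ (q : List Bool × List Bool) => q.1)
    (poly_unbits.comp (poly_strip.comp (poly_resB' hT hFB))) (NPC.Poly.const _) (by fun_prop)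

theorem poly_preB (hT : Poly T) (hFB : Poly FB) : Poly (preB p T FB PB) := by
  have h1 : Poly (fun x : List Unit × ((List Bool × List Bool) × List Bool) =>
      resB' p T FB PB (x.1, x.2.1)) :=
    (poly_resB' hT hFB).comp (f := fun x : List Unit × ((List Bool × List Bool) × List Bool) =>
      (x.1, x.2.1)) (by fun_prop)
  unfold preB
  exact hFB.comp (by fun_prop)

theorem poly_preA (hT : Poly T) (hFA : Poly FA) (hFB : Poly FB) :
    Poly (preA p T FA PA FB PB) := by
  have h1 : Poly (fun x : List Unit × ((List Bool × List Bool) × List Bool) =>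
      ce' p T FB PB (x.1, x.2.1)) :=
    (poly_ce' hT hFB).comp (f := fun x : List Unit × ((List Bool × List Bool) × List Bool) =>
      (x.1, x.2.1)) (by fun_prop)
  have h2 : Poly (fun x : List Unit × ((List Bool × List Bool) × List Bool) =>
      resA' p T FA PA ((x.1, x.2.1.1), ce' p T FB PB (x.1, x.2.1))) :=
    (poly_resA' hT hFA).comp (by fun_prop)
  unfold preA
  exact hFA.comp (by fun_prop)

theorem poly_hard' (hT : Poly T) (hFA : Poly FA) (hFB : Poly FB) :
    Poly (hard' p T FA PA FB PB) := by
  have h1 : Poly (fun x : List Unit × (Bool × ((List Bool × List Bool) × List Bool)) =>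
      preB p T FB PB (x.1, x.2.2)) := (poly_preB hT hFB).comp (by fun_prop)
  have h2 : Poly (fun x : List Unit × (Bool × ((List Bool × List Bool) × List Bool)) =>
      preA p T FA PA FB PB (x.1, x.2.2)) := (poly_preA hT hFA hFB).comp (by fun_prop)
  unfold hard'
  exact Poly.ite (p := fun x : List Unit × (Bool × ((List Bool × List Bool) × List Bool)) =>
      x.2.1 = true) (by fun_prop)
    (poly_padE (UPoly.eval (UPoly.length (Poly.fst Poly.id)) PB) h1)
    (poly_padE (UPoly.eval (UPoly.length (Poly.fst Poly.id)) PA) h2)

/-- If the test is right about the six formulas, then there is no counterexample. -/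
theorem no_counterexample' {L : Set (List Bool)}
    (hL : ∀ x, x ∈ L ↔ ∃ w : List Bool, w.length ≤ p.eval x.length ∧ V (pairBits x w) = [true])
    (hFA : ∀ x q, Sat (FA (x, q)) ↔ ∃ u, q <+: u ∧ u.length = lenA p x ∧ WA V p (x, u) = true)
    (hFB : ∀ (x : List Unit × List Bool) q, Sat (FB (x, q)) ↔
      ∃ u, q <+: u ∧ u.length = lenB p x.1 ∧ WB' V p T FA PA (x, u) = true)
    {U : List Unit} {wA wB : List Bool}
    (hB : ∀ τ ∈ [[], [true], [false]], (T (wB, bits (hard' p T FA PA FB PB
      (U, (true, ((wA, wB), τ))))) = true ↔ Sat (hard' p T FA PA FB PB (U, (true, ((wA, wB), τ))))))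
    (hA : ∀ τ ∈ [[], [true], [false]], (T (wA, bits (hard' p T FA PA FB PB
      (U, (false, ((wA, wB), τ))))) = true ↔
        Sat (hard' p T FA PA FB PB (U, (false, ((wA, wB), τ))))))
    {a : List Bool} (haU : a.length ≤ U.length) (ha : a ∈ L) :
    algA' V p T FA PA ((U, wA), a) = true := by
  by_contra hne
  have hne' : algA' V p T FA PA ((U, wA), a) = false := by simpa using hne
  obtain ⟨u, hu, hWu⟩ := WA_complete hL ha haU
  -- the search for a counterexample succeeds
  have hB' := search_correct (t := fun q => sA T PB U wB (FB ((U, wA), q)))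
    (W := fun u => u.length = lenB p U ∧ WB' V p T FA PA ((U, wA), u) = true) (len := lenB p U)
    (fun u hu => hu.1) (by
      have hsz : (bits (a, u)).length ≤ 4 * U.length + (4 * (p.eval U.length + 1) + 3) := by
        rw [bits_length, sz_pair]
        have e1 := sz_listBool_le a
        have e2 := sz_listBool_le u
        unfold lenA at hu
        simp only at hu
        omega
      refine ⟨pad _ (bits (a, u)), length_pad hsz, ?_⟩
      simp only [WB', strip_pad, unbits_bits, Option.elim_some, Bool.and_eq_true,
        decide_eq_true_eq, Bool.not_eq_true']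
      exact ⟨haU, hu, hWu, hne'⟩)
    (by
      intro τ hτ
      have h1 := hB τ hτ
      simp only [hard', if_true, preB] at h1
      rw [sat_padE, hFB] at h1
      exact h1)
  obtain ⟨_, hB'⟩ := hB'
  change WB' V p T FA PA ((U, wA), resB' p T FB PB (U, (wA, wB))) = true at hB'
  unfold WB' at hB'
  cases hd : unbits (List Bool × List Bool) (strip (resB' p T FB PB (U, (wA, wB)))) with
  | none => rw [hd] at hB'; simp at hB'
  | some q =>
    rw [hd] at hB'
    simp only [Option.elim_some, Bool.and_eq_true, decide_eq_true_eq,
      Bool.not_eq_true'] at hB'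
    obtain ⟨h1, h2, h3, h4⟩ := hB'
    have hce : ce' p T FB PB (U, (wA, wB)) = q.1 := by
      unfold ce'
      rw [hd]
      rfl
    -- the search for a certificate for the counterexample succeeds
    have hA' := search_correct (t := fun q' => sA T PA U wA (FA ((U, q.1), q')))
      (W := fun u => u.length = lenA p (U, q.1) ∧ WA V p ((U, q.1), u) = true)
      (len := lenA p (U, q.1)) (fun u hu => hu.1) ⟨q.2, h2, h3⟩ (by
        intro τ hτ
        have h5 := hA τ hτ
        simp only [hard', Bool.false_eq_true, if_false, preA, hce] at h5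
        rw [sat_padE, hFA] at h5
        exact h5)
    have h5 : algA' V p T FA PA ((U, wA), q.1) = true := hA'.2
    rw [h4] at h5
    exact Bool.false_ne_true h5

end

end Pool.Agent.J6H43.KS
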