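import Pool.Agent.J6H43.KS.Defs

/-!
# Polynomial time with advice
-/

set_option autoImplicit false
set_option maxHeartbeats 4000000

namespace Pool.Agent.J6H43.KS

open Pool.Agent.NPC hiding SAT
open Pool.Agent.J6H27.KS Filter

/-- The class `P/a`: languages decided in polynomial time with an advice string of length at most
`a n` for all inputs of length `n`. -/
def InPAdv (a : ℕ → ℕ) (S : Set (List Bool)) : Prop :=
  ∃ (V : List Bool → List Bool) (adv : ℕ → List Bool), PolyTime V ∧ (∀ n, (adv n).length ≤ a n) ∧
    ∀ x, x ∈ S ↔ V (pairBits x (adv x.length)) = [true]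

/-- Some set in `P/a` agrees with `SAT` on `A` if and only if `P = NP`; some set in `P/a` separates
`A ∩ SAT` from the complement of `SAT` if and only if `P = NP`. -/
structure AdvConclusion (A : Set (List Bool)) (a : ℕ → ℕ) : Prop where
  /-- the sets which agree with `SAT` on `A` -/
  agree : (∃ S : Set (List Bool), InPAdv a S ∧ Agree A S) ↔ PEqNP
  /-- the separators -/
  separate : (∃ S : Set (List Bool), InPAdv a S ∧ A ∩ SAT ⊆ S ∧ S ∩ SATᶜ = ∅) ↔ PEqNP

end Pool.Agent.J6H43.KS
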