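import Pool.Agent.J6H43.KS.Adv

/-!
# The hard formulas have short descriptions, with advice
-/

set_option autoImplicit false
set_option maxHeartbeats 4000000

namespace Pool.Agent.J6H43.KS

open Pool.Agent.NPC hiding SAT
open Pool.Agent.H695R2 Pool.Agent.H695R2.IsoImp Pool.Agent.J6H27.KS Turing Filter
open Pool.Agent.H660R2.NX

theorem mem_adv {U : Mach} {c : ℕ}
    (hU : ∀ M : Mach, ∃ (code : List Bool → List Bool) (d : ℕ) (q : Polynomial ℕ),
      (∀ y, (code y).length ≤ c * y.length + d) ∧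
      ∀ y x t, M.Outputs y x t → U.Outputs (code y) x (q.eval (y.length + t)))
    {g G : ℕ → ℕ}
    (hg : ∀ᶠ n in atTop, (8 * c + 2) * Nat.log 2 (Nat.log 2 (Nat.log 2 n)) ≤ g n)
    (hG : ∀ k : ℕ, ∀ᶠ n in atTop, n ^ k ≤ G n)
    {H : List Unit × (Bool × ((List Bool × List Bool) × List Bool)) → BF} (hH : Poly H) :
    ∀ᶠ j in atTop, ∀ (b : Bool) (wA wB τ : List Bool) (n : ℕ),
      wA.length ≤ 2 ^ 2 ^ j → wB.length ≤ 2 ^ 2 ^ j → τ.length ≤ 1 →
      (bits (H (List.replicate (2 ^ 2 ^ j) (), (b, ((wA, wB), τ))))).length = n → 2 ^ 2 ^ j ≤ n →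
      16 * (c + 1) * wA.length ≤ g n → 16 * (c + 1) * wB.length ≤ g n →
      bits (H (List.replicate (2 ^ 2 ^ j) (), (b, ((wA, wB), τ)))) ∈ K U g G := by
  obtain ⟨M, r, hM⟩ := exists_mach hH
  obtain ⟨code, d, qq, hcode, hsim⟩ := hU M
  obtain ⟨k, hk⟩ := poly_le_pow (qq.comp (Polynomial.C 20 * Polynomial.X + Polynomial.C 40 +
    r.comp (Polynomial.C 20 * Polynomial.X + Polynomial.C 40)))
  obtain ⟨n₁, h₁⟩ := eventually_atTop.1 hg
  obtain ⟨n₂, h₂⟩ := eventually_atTop.1 (hG k)
  refine eventually_atTop.2 ⟨n₁ + n₂ + 2 ^ (34 * c + d) + 2, fun j hj => ?_⟩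
  intro b wA wB τ n hA1 hB1 hτ hn hlen hwA hwB
  have hpos : 0 < 2 ^ (34 * c + d) := by positivity
  set x := bits (H (List.replicate (2 ^ 2 ^ j) (), (b, ((wA, wB), τ)))) with hx
  subst hn
  have hj1 : j ≤ 2 ^ 2 ^ j := Nat.lt_two_pow_self.le.trans Nat.lt_two_pow_self.le
  have hjN : j ≤ x.length := hj1.trans hlen
  have hsb := sz_bool_le b
  have hsτ := sz_listBool_le τ
  have hsj := sz_nat_le j
  have hsA := sz_listBool_le wA
  have hsB := sz_listBool_le wB
  have hjs : j.size ≤ j := Poly.size_le_self j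
  have e2 := size_le_log j
  have hsz : (bits (j, (b, ((wA, wB), τ)))).length ≤
      4 * Nat.log 2 j + 4 * wA.length + 4 * wB.length + 34 := by
    simp only [bits_length, sz_pair]
    omega
  refine ⟨code (bits (j, (b, ((wA, wB), τ)))), ?_,
    qq.eval ((bits (j, (b, ((wA, wB), τ)))).length +
      r.eval (2 ^ 2 ^ j + sz (b, ((wA, wB), τ)))), ?_, hsim _ _ _ (hM j (b, ((wA, wB), τ)))⟩
  · have e1 := hcode (bits (j, (b, ((wA, wB), τ))))
    have e3 : Nat.log 2 j ≤ Nat.log 2 (Nat.log 2 (Nat.log 2 x.length)) :=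
      Nat.log_mono_right (log_log_le hlen)
    have e4 : 34 * c + d ≤ Nat.log 2 j := by
      have := Nat.log_mono_right (b := 2) (show 2 ^ (34 * c + d) ≤ j by omega)
      rwa [Nat.log_pow (by norm_num)] at this
    have e5 : (code (bits (j, (b, ((wA, wB), τ))))).length ≤
        c * (4 * Nat.log 2 j + 4 * wA.length + 4 * wB.length + 34) + d :=
      e1.trans (Nat.add_le_add_right (Nat.mul_le_mul_left _ hsz) _)
    refine e5.trans ?_
    have e6 := h₁ x.length (by omega)
    have e7 : (8 * c + 2) * Nat.log 2 j ≤ g x.length := (Nat.mul_le_mul_left _ e3).trans e6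
    have f1 : 16 * (c * wA.length) ≤ g x.length := by
      refine le_trans ?_ hwA
      calc 16 * (c * wA.length) = 16 * c * wA.length := by ring
        _ ≤ 16 * (c + 1) * wA.length := by gcongr; omega
    have f2 : 16 * (c * wB.length) ≤ g x.length := by
      refine le_trans ?_ hwB
      calc 16 * (c * wB.length) = 16 * c * wB.length := by ring
        _ ≤ 16 * (c + 1) * wB.length := by gcongr; omega
    have f3 : c * (4 * Nat.log 2 j + 4 * wA.length + 4 * wB.length + 34) + d =
        4 * (c * Nat.log 2 j) + 4 * (c * wA.length) + 4 * (c * wB.length) + (34 * c + d) := by ring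
    have f4 : (8 * c + 2) * Nat.log 2 j = 8 * (c * Nat.log 2 j) + 2 * Nat.log 2 j := by ring
    rw [f3]
    rw [f4] at e7
    omega
  · have e1 := h₂ x.length (by omega)
    have e2 := hk x.length (by omega)
    refine lt_of_lt_of_le (Nat.lt_of_lt_of_le ?_ e2) e1
    rw [Polynomial.eval_comp]
    refine Nat.lt_succ_of_le (eval_mono qq ?_)
    have e3 : Nat.log 2 j ≤ j := Nat.log_le_self _ _
    have e4 : r.eval (2 ^ 2 ^ j + sz (b, ((wA, wB), τ))) ≤ r.eval (20 * x.length + 40) := by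
      apply eval_mono
      simp only [sz_pair]
      omega
    simp only [Polynomial.eval_add, Polynomial.eval_mul, Polynomial.eval_C, Polynomial.eval_X,
      Polynomial.eval_comp]
    omega

end Pool.Agent.J6H43.KS
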