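import Pool.Agent.J6H43.KS.AdvDefs
import Pool.Agent.J6H43.KS.AdvMem

/-!
# Separators with advice of length `o(log n)`
-/

set_option autoImplicit false
set_option maxHeartbeats 4000000

namespace Pool.Agent.J6H43.KS

open Pool.Agent.NPC hiding SAT
open Pool.Agent.H695R2 Pool.Agent.H695R2.IsoImp Pool.Agent.J6H27.KS Turing Filter
open Pool.Agent.H660R2.NX

/-- the polynomial bounding the length of the codes of counterexamples -/
noncomputable def LBp (p : Polynomial ℕ) : Polynomial ℕ :=
  Polynomial.C 4 * Polynomial.X + Polynomial.C 4 * p + Polynomial.C 8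

theorem lenB_eval (p : Polynomial ℕ) (U : List Unit) : lenB p U = (LBp p).eval U.length := by
  unfold lenB LBp
  simp only [Polynomial.eval_add, Polynomial.eval_mul, Polynomial.eval_C, Polynomial.eval_X]
  ring

section

variable {p : Polynomial ℕ} {T : List Bool × List Bool → Bool}
  {FA : (List Unit × List Bool) × List Bool → BF} {PA : Polynomial ℕ}
  {FB : (List Unit × List Bool) × List Bool → BF} {PB : Polynomial ℕ}

theorem length_ce' (x : List Unit × (List Bool × List Bool)) :
    (ce' p T FB PB x).length ≤ lenB p x.1 := by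
  have h1 : (resB' p T FB PB x).length ≤ lenB p x.1 := stp_iterate_length_le _ _
  have h2 := length_strip (resB' p T FB PB x)
  unfold ce'
  cases hd : unbits (List Bool × List Bool) (strip (resB' p T FB PB x)) with
  | none => simp
  | some q =>
    have h3 := bits_of_unbits hd
    have h4 : (bits q).length = sz q.1 + sz q.2 + 1 := by
      rw [bits_length]
      exact sz_pair q.1 q.2
    have h5 := sz_listBool_ge q.1
    have h6 : (bits q).length = (strip (resB' p T FB PB x)).length := by rw [h3]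
    show q.1.length ≤ _
    omega

theorem length_preA {rA : Polynomial ℕ} (hrA : ∀ y, sz (FA y) ≤ rA.eval (sz y))
    (x : List Unit × ((List Bool × List Bool) × List Bool)) (hτ : x.2.2.length ≤ 1) :
    (bits (preA p T FA PA FB PB x)).length ≤
      (rA.comp (Polynomial.C 2 * Polynomial.X + Polynomial.C 4 * LBp p + Polynomial.C 4 * p +
        Polynomial.C 14)).eval x.1.length := by
  unfold preA
  rw [bits_length]
  refine (hrA _).trans ?_
  rw [Polynomial.eval_comp]
  apply eval_mono
  simp only [Polynomial.eval_add, Polynomial.eval_mul, Polynomial.eval_C, Polynomial.eval_X]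
  have h1 := length_ce' (p := p) (T := T) (FB := FB) (PB := PB) (x.1, x.2.1)
  have h2 : (resA' p T FA PA ((x.1, x.2.1.1), ce' p T FB PB (x.1, x.2.1))).length ≤
    p.eval x.1.length + 1 := stp_iterate_length_le _ _
  have h3 := sz_listBool_le (ce' p T FB PB (x.1, x.2.1))
  have h4 := sz_listBool_le (resA' p T FA PA ((x.1, x.2.1.1), ce' p T FB PB (x.1, x.2.1)) ++ x.2.2)
  rw [List.length_append] at h4
  have h5 := sz_unitList x.1
  simp only at h1
  rw [lenB_eval] at h1
  rw [sz_pair, sz_pair]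
  omega

theorem length_preB {rB : Polynomial ℕ} (hrB : ∀ y, sz (FB y) ≤ rB.eval (sz y))
    (x : List Unit × ((List Bool × List Bool) × List Bool)) (hτ : x.2.2.length ≤ 1)
    (hw : x.2.1.1.length ≤ x.1.length) :
    (bits (preB p T FB PB x)).length ≤
      (rB.comp (Polynomial.C 6 * Polynomial.X + Polynomial.C 4 * LBp p +
        Polynomial.C 14)).eval x.1.length := by
  unfold preB
  rw [bits_length]
  refine (hrB _).trans ?_
  rw [Polynomial.eval_comp]
  apply eval_mono
  simp only [Polynomial.eval_add, Polynomial.eval_mul, Polynomial.eval_C, Polynomial.eval_X]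
  have h2 : (resB' p T FB PB (x.1, x.2.1)).length ≤ lenB p x.1 := stp_iterate_length_le _ _
  have h3 := sz_listBool_le x.2.1.1
  have h4 := sz_listBool_le (resB' p T FB PB (x.1, x.2.1) ++ x.2.2)
  rw [List.length_append] at h4
  have h5 := sz_unitList x.1
  rw [lenB_eval] at h2
  rw [sz_pair, sz_pair]
  omega

end

/-- all strings of length at most `D log |U|` -/
def advs (D : ℕ) (U : List Unit) : List (List Bool) :=
  allB (D * U.length.bits.length) (List.replicate ((2 * U.length) ^ D) ())

theorem mem_advs {D j : ℕ} {w : List Bool} (hw : w.length ≤ D * 2 ^ j) :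
    w ∈ advs D (List.replicate (2 ^ 2 ^ j) ()) := by
  unfold advs
  have h1 : (List.replicate (2 ^ 2 ^ j) ()).length.bits.length = 2 ^ j + 1 := by
    rw [List.length_replicate, Nat.size_eq_bits_len, Nat.size_pow]
  rw [h1, allB_eq (by
    rw [List.length_replicate, List.length_replicate, ← pow_succ', ← pow_mul, mul_comm D])]
  exact mem_allStr.2 (hw.trans (Nat.mul_le_mul_left _ (Nat.le_succ _)))

theorem peqnp_of_advice {U : Mach} {c : ℕ}
    (hU : ∀ M : Mach, ∃ (code : List Bool → List Bool) (d : ℕ) (q : Polynomial ℕ),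
      (∀ y, (code y).length ≤ c * y.length + d) ∧
      ∀ y x t, M.Outputs y x t → U.Outputs (code y) x (q.eval (y.length + t)))
    {g G : ℕ → ℕ} (hg : ∀ᶠ n in atTop, (8 * c + 2) * Nat.log 2 (Nat.log 2 (Nat.log 2 n)) ≤ g n)
    (hG : ∀ k : ℕ, ∀ᶠ n in atTop, n ^ k ≤ G n)
    {a : ℕ → ℕ} {D : ℕ} (haD : ∀ᶠ n in atTop, a n ≤ D * Nat.log 2 n)
    (hag : ∀ m : ℕ, ∀ᶠ n in atTop, ∀ n' ≤ n ^ m, m * a n' ≤ g n)
    {S : Set (List Bool)} (hS : InPAdv a S) (hSK : Agree (K U g G) S) : PEqNP := by
  obtain ⟨VS, adv, hVS, hadv, hS'⟩ := hS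
  let T : List Bool × List Bool → Bool := fun y => decide (VS (pairBits y.2 y.1) = [true])
  have hT : Poly T := by
    have h1 : Poly (fun y : List Bool × List Bool => VS (pairBits y.2 y.1)) :=
      (poly_of_polyTime hVS).comp (poly_pairBits (Poly.snd Poly.id) (Poly.fst Poly.id))
    exact Poly.dec_eq h1 (NPC.Poly.const _)
  have hTS : ∀ x : List Bool, T (adv x.length, x) = true ↔ x ∈ S := fun x => by
    simp only [T, decide_eq_true_eq]
    exact (hS' x).symm
  refine fun L => ⟨fun h => h.inNP, ?_⟩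
  rintro ⟨V, p, hV, hL⟩
  have hV' := poly_of_polyTime hV
  obtain ⟨FA, hFA, hFA'⟩ := exists_family (poly_WA V p hV') (upoly_lenA p)
  obtain ⟨rA, hrA⟩ := hFA.sz_le
  obtain ⟨PA, hPA⟩ : ∃ PA : Polynomial ℕ, PA = rA.comp (Polynomial.C 2 * Polynomial.X +
    Polynomial.C 4 * LBp p + Polynomial.C 4 * p + Polynomial.C 14) + Polynomial.X := ⟨_, rfl⟩
  have hlB : UPoly (fun x : List Unit × List Bool => lenB p x.1) :=
    (upoly_lenB (p := p)).comp (Poly.fst Poly.id)
  obtain ⟨FB, hFB, hFB'⟩ := exists_family (poly_WB' (V := V) (p := p) (PA := PA) hV' hT hFA) hlB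
  obtain ⟨rB, hrB⟩ := hFB.sz_le
  obtain ⟨PB, hPB⟩ : ∃ PB : Polynomial ℕ, PB = rB.comp (Polynomial.C 6 * Polynomial.X +
    Polynomial.C 4 * LBp p + Polynomial.C 14) + Polynomial.X := ⟨_, rfl⟩
  obtain ⟨κ, hκ⟩ := poly_le_pow (Polynomial.C 8 * (PA + PB) + Polynomial.C 65)
  have hEA : ∀ n, 2 ≤ n → E (PA.eval n) ≤ n ^ κ := fun n hn => by
    have := hκ n hn
    simp only [Polynomial.eval_add, Polynomial.eval_mul, Polynomial.eval_C] at this
    unfold E
    omega
  have hEB : ∀ n, 2 ≤ n → E (PB.eval n) ≤ n ^ κ := fun n hn => by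
    have := hκ n hn
    simp only [Polynomial.eval_add, Polynomial.eval_mul, Polynomial.eval_C] at this
    unfold E
    omega
  have hκ0 : 0 < κ := by
    rcases Nat.eq_zero_or_pos κ with h | h
    · subst h
      have := hEA 2 le_rfl
      unfold E at this
      omega
    · exact h
  have hgeA : ∀ n, n ≤ PA.eval n := fun n => by
    rw [hPA, Polynomial.eval_add, Polynomial.eval_X]
    exact Nat.le_add_left _ _
  have hgeB : ∀ n, n ≤ PB.eval n := fun n => by
    rw [hPB, Polynomial.eval_add, Polynomial.eval_X]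
    exact Nat.le_add_left _ _
  have hPAle : ∀ n, (rA.comp (Polynomial.C 2 * Polynomial.X +
      Polynomial.C 4 * LBp p + Polynomial.C 4 * p + Polynomial.C 14)).eval n ≤ PA.eval n :=
    fun n => by
      rw [hPA, Polynomial.eval_add]
      exact Nat.le_add_right _ _
  have hPBle : ∀ n, (rB.comp (Polynomial.C 6 * Polynomial.X +
      Polynomial.C 4 * LBp p + Polynomial.C 14)).eval n ≤ PB.eval n := fun n => by
    rw [hPB, Polynomial.eval_add]
    exact Nat.le_add_right _ _
  have htwo : ∀ j : ℕ, 2 ≤ 2 ^ 2 ^ j := fun j => by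
    calc 2 = 2 ^ 1 := rfl
      _ ≤ 2 ^ 2 ^ j := Nat.pow_le_pow_right (by norm_num) Nat.one_le_two_pow
  have hlow : ∀ P : Polynomial ℕ, (∀ n, n ≤ P.eval n) → ∀ n, n ≤ E (P.eval n) := by
    intro P hP n
    have := hP n
    unfold E
    omega
  have hself : ∀ j : ℕ, j ≤ 2 ^ 2 ^ j := fun j =>
    Nat.lt_two_pow_self.le.trans Nat.lt_two_pow_self.le
  -- the advice is of logarithmic length
  have hsmall : ∀ P : Polynomial ℕ, (∀ n, 2 ≤ n → E (P.eval n) ≤ n ^ κ) → (∀ n, n ≤ P.eval n) →
      ∀ᶠ j in atTop, (adv (E (P.eval (2 ^ 2 ^ j)))).length ≤ D * κ * 2 ^ j := by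
    intro P hP1 hP2
    obtain ⟨n₃, h₃⟩ := eventually_atTop.1 haD
    refine eventually_atTop.2 ⟨n₃, fun j hj => ?_⟩
    have f1 := hself j
    have f2 := hlow P hP2 (2 ^ 2 ^ j)
    have f3 := h₃ (E (P.eval (2 ^ 2 ^ j))) (by omega)
    have f4 : Nat.log 2 (E (P.eval (2 ^ 2 ^ j))) ≤ κ * 2 ^ j := by
      have := Nat.log_mono_right (b := 2) (hP1 _ (htwo j))
      rwa [← pow_mul, Nat.log_pow (by norm_num), mul_comm] at this
    calc (adv (E (P.eval (2 ^ 2 ^ j)))).length ≤ D * Nat.log 2 (E (P.eval (2 ^ 2 ^ j))) :=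
          (hadv _).trans f3
      _ ≤ D * (κ * 2 ^ j) := Nat.mul_le_mul_left _ f4
      _ = D * κ * 2 ^ j := by ring
  -- the advice is short compared to `g`
  have hshort : ∀ P P' : Polynomial ℕ, (∀ n, n ≤ P.eval n) →
      (∀ n, 2 ≤ n → E (P'.eval n) ≤ n ^ κ) →
      ∀ᶠ j in atTop, 16 * (c + 1) * (adv (E (P'.eval (2 ^ 2 ^ j)))).length ≤
        g (E (P.eval (2 ^ 2 ^ j))) := by
    intro P P' hP2 hP1
    obtain ⟨n₃, h₃⟩ := eventually_atTop.1 (hag (16 * (c + 1) + κ))
    refine eventually_atTop.2 ⟨n₃, fun j hj => ?_⟩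
    have f1 := hself j
    have f2 := hlow P hP2 (2 ^ 2 ^ j)
    have f0 := htwo j
    have f3 := h₃ (E (P.eval (2 ^ 2 ^ j))) (by omega) (E (P'.eval (2 ^ 2 ^ j))) (by
      refine (hP1 _ f0).trans ((Nat.pow_le_pow_left f2 κ).trans ?_)
      exact Nat.pow_le_pow_right (by omega) (by omega))
    refine le_trans ?_ f3
    exact Nat.mul_le_mul (Nat.le_add_right _ _) (hadv _)
  have hbig : ∀ᶠ j : ℕ in atTop, D * κ * 2 ^ j ≤ 2 ^ 2 ^ j := by
    refine eventually_atTop.2 ⟨4 * (D * κ), fun j hj => ?_⟩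
    exact mul_le_two_pow (hj.trans Nat.lt_two_pow_self.le)
  obtain ⟨j₀, hj₀⟩ := eventually_atTop.1 ((mem_adv hU hg hG
    (poly_hard' (p := p) (PA := PA) (PB := PB) hT hFA hFB)).and
      (((hsmall PA hEA hgeA).and (hsmall PB hEB hgeB)).and
        (((hshort PA PA hgeA hEA).and (hshort PA PB hgeA hEB)).and
          (((hshort PB PA hgeB hEA).and (hshort PB PB hgeB hEB)).and hbig))))
  have key : ∀ j ≥ j₀, ∀ x : List Bool, x.length ≤ 2 ^ 2 ^ j → x ∈ L →
      algA' V p T FA PA ((List.replicate (2 ^ 2 ^ j) (), adv (E (PA.eval (2 ^ 2 ^ j)))), x) =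
        true := by
    intro j hj x hx hxL
    obtain ⟨h1, ⟨h2, h3⟩, ⟨gAA, gAB⟩, ⟨gBA, gBB⟩, h4⟩ := hj₀ j hj
    have hwU : (adv (E (PA.eval (2 ^ 2 ^ j)))).length ≤ 2 ^ 2 ^ j := h2.trans h4
    have hwU' : (adv (E (PB.eval (2 ^ 2 ^ j)))).length ≤ 2 ^ 2 ^ j := h3.trans h4
    refine no_counterexample' (FB := FB) (PB := PB) (wB := adv (E (PB.eval (2 ^ 2 ^ j)))) hL hFA'
      hFB' ?_ ?_ (by rw [List.length_replicate]; exact hx) hxL
    · intro τ hτ
      have hτ1 : τ.length ≤ 1 := by
        simp only [List.mem_cons, List.not_mem_nil, or_false] at hτ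
        rcases hτ with rfl | rfl | rfl <;> simp
      have hl : (bits (hard' p T FA PA FB PB (List.replicate (2 ^ 2 ^ j) (),
          (true, ((adv (E (PA.eval (2 ^ 2 ^ j))), adv (E (PB.eval (2 ^ 2 ^ j)))), τ))))).length =
          E (PB.eval (2 ^ 2 ^ j)) := by
        simp only [hard', if_true, List.length_replicate]
        apply length_padE
        have := length_preB (p := p) (T := T) (PB := PB) hrB (List.replicate (2 ^ 2 ^ j) (),
          ((adv (E (PA.eval (2 ^ 2 ^ j))), adv (E (PB.eval (2 ^ 2 ^ j)))), τ)) hτ1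
          (by simpa using hwU)
        simp only [List.length_replicate] at this
        exact this.trans (hPBle _)
      have hK := h1 true _ _ τ _ hwU hwU' hτ1 hl (hlow PB hgeB _) gBA gBB
      have e1 := hTS (bits (hard' p T FA PA FB PB
        (List.replicate (2 ^ 2 ^ j) (), (true, ((adv (E (PA.eval (2 ^ 2 ^ j))),
          adv (E (PB.eval (2 ^ 2 ^ j)))), τ)))))
      rw [hl] at e1
      exact e1.trans ((hSK _ hK).trans bits_mem_lang)
    · intro τ hτ
      have hτ1 : τ.length ≤ 1 := by
        simp only [List.mem_cons, List.not_mem_nil, or_false] at hτ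
        rcases hτ with rfl | rfl | rfl <;> simp
      have hl : (bits (hard' p T FA PA FB PB (List.replicate (2 ^ 2 ^ j) (),
          (false, ((adv (E (PA.eval (2 ^ 2 ^ j))), adv (E (PB.eval (2 ^ 2 ^ j)))), τ))))).length =
          E (PA.eval (2 ^ 2 ^ j)) := by
        simp only [hard', Bool.false_eq_true, if_false, List.length_replicate]
        apply length_padE
        have := length_preA (p := p) (T := T) (PA := PA) (FB := FB) (PB := PB) hrA
          (List.replicate (2 ^ 2 ^ j) (),
          ((adv (E (PA.eval (2 ^ 2 ^ j))), adv (E (PB.eval (2 ^ 2 ^ j)))), τ)) hτ1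
        simp only [List.length_replicate] at this
        exact this.trans (hPAle _)
      have hK := h1 false _ _ τ _ hwU hwU' hτ1 hl (hlow PA hgeA _) gAA gAB
      have e1 := hTS (bits (hard' p T FA PA FB PB
        (List.replicate (2 ^ 2 ^ j) (), (false, ((adv (E (PA.eval (2 ^ 2 ^ j))),
          adv (E (PB.eval (2 ^ 2 ^ j)))), τ)))))
      rw [hl] at e1
      exact e1.trans ((hSK _ hK).trans bits_mem_lang)
  -- the algorithm
  have hf : Poly (fun x : List Bool => List.replicate (dsq j₀ x.length) ()) := upoly_dsq j₀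
  have hd : Poly (fun x : List Bool => (advs (D * κ) (List.replicate (dsq j₀ x.length) ())).any
      (fun w => algA' V p T FA PA ((List.replicate (dsq j₀ x.length) (), w), x))) := by
    have h1 : Poly (fun x : List Bool =>
        advs (D * κ) (List.replicate (dsq j₀ x.length) ())) := by
      unfold advs
      refine poly_allB (UPoly.mul (UPoly.const _) (UPoly.length (Poly.natBits (Poly.length hf))))
        ?_
      have h3 := UPoly.eval (UPoly.length hf) ((Polynomial.C 2 * Polynomial.X) ^ (D * κ))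
      simp only [Polynomial.eval_pow, Polynomial.eval_mul, Polynomial.eval_C,
        Polynomial.eval_X] at h3
      exact h3
    have h2 : Poly (fun x : List Bool × List Bool =>
        algA' V p T FA PA ((List.replicate (dsq j₀ x.1.length) (), x.2), x.1)) := by
      have h3 : Poly (fun x : List Bool × List Bool => List.replicate (dsq j₀ x.1.length) ()) :=
        hf.comp (Poly.fst Poly.id)
      exact (poly_algA' hV' hT hFA).comp
        (Poly.pair (Poly.pair h3 (Poly.snd Poly.id)) (Poly.fst Poly.id))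
    exact Poly.any (p := fun (x : List Bool) (w : List Bool) =>
      algA' V p T FA PA ((List.replicate (dsq j₀ x.length) (), w), x)) h1 h2
  refine ⟨_, polyTime_of_poly hd, fun x => ?_⟩
  simp only [List.cons.injEq, and_true, List.any_eq_true]
  constructor
  · intro hx
    obtain ⟨j, hj, e⟩ := dsq_spec j₀ x.length
    rw [e]
    refine ⟨_, mem_advs (hj₀ j hj).2.1.1, key j hj x ?_ hx⟩
    rw [← e]
    exact le_dsq _ _
  · rintro ⟨w, _, hw⟩
    exact WA_sound hL hw

end Pool.Agent.J6H43.KS
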