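import Pool.Agent.J6H43.KS.AdvFinal
import Pool.Agent.J6H43.KS.Final

/-!
# Separators with advice: the main theorem
-/

set_option autoImplicit false
set_option maxHeartbeats 4000000

namespace Pool.Agent.J6H43.KS

open Pool.Agent.NPC hiding SAT
open Pool.Agent.H695R2 Pool.Agent.H695R2.IsoImp Pool.Agent.J6H27.KS Turing Filter
open Pool.Agent.H660R2.NX

theorem inPAdv_of_inP {a : ℕ → ℕ} {S : Set (List Bool)} (h : InP S) : InPAdv a S := by
  obtain ⟨V, hV, hV'⟩ := h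
  refine ⟨fun z => V (unpair z).1, fun _ => [], ?_, fun _ => Nat.zero_le _, fun x => ?_⟩
  · exact polyTime_of_poly' ((poly_of_polyTime hV).comp (Poly.fst poly_unpair))
  · simp only [unpair_pairBits]
    exact hV' x

theorem advice_conclusion {U : Mach} {c : ℕ}
    (hU : ∀ M : Mach, ∃ (code : List Bool → List Bool) (d : ℕ) (q : Polynomial ℕ),
      (∀ y, (code y).length ≤ c * y.length + d) ∧
      ∀ y x t, M.Outputs y x t → U.Outputs (code y) x (q.eval (y.length + t)))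
    {g G : ℕ → ℕ} (hg : ∀ᶠ n in atTop, (8 * c + 2) * Nat.log 2 (Nat.log 2 (Nat.log 2 n)) ≤ g n)
    (hG : ∀ k : ℕ, ∀ᶠ n in atTop, n ^ k ≤ G n)
    {a : ℕ → ℕ} {D : ℕ} (haD : ∀ᶠ n in atTop, a n ≤ D * Nat.log 2 n)
    (hag : ∀ m : ℕ, ∀ᶠ n in atTop, ∀ n' ≤ n ^ m, m * a n' ≤ g n) :
    AdvConclusion (K U g G) a := by
  have hback : PEqNP →
      ∃ S : Set (List Bool), InPAdv a S ∧ K U g G ∩ SAT ⊆ S ∧ S ∩ SATᶜ = ∅ := fun h =>
    ⟨SAT, inPAdv_of_inP ((h SAT).2 inNP_SAT), Set.inter_subset_right, Set.inter_compl_self _⟩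
  refine ⟨⟨?_, fun h => ?_⟩, ⟨?_, hback⟩⟩
  · rintro ⟨S, hS, hA⟩
    exact peqnp_of_advice hU hg hG haD hag hS hA
  · obtain ⟨S, hS, h1, h2⟩ := hback h
    exact ⟨S, hS, agree_of_sep h1 h2⟩
  · rintro ⟨S, hS, h1, h2⟩
    exact peqnp_of_advice hU hg hG haD hag hS (agree_of_sep h1 h2)

/-- Functions that are `o(log n)` satisfy the condition. -/
theorem small_of_little {a : ℕ → ℕ} (ha : ∀ m : ℕ, ∀ᶠ n in atTop, m * a n ≤ Nat.log 2 n) (m : ℕ) :
    ∀ᶠ n in atTop, ∀ n' ≤ n ^ m, m * a n' ≤ Nat.clog 2 n := by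
  obtain ⟨N, hN⟩ := eventually_atTop.1 (ha (2 * (m + 1) * (m + 1)))
  refine eventually_atTop.2 ⟨2 ^ (m * ∑ i ∈ Finset.range N, a i) + 2, fun n hn n' hn' => ?_⟩
  have h0 : 0 < 2 ^ (m * ∑ i ∈ Finset.range N, a i) := by positivity
  refine le_trans ?_ (Nat.log_le_clog 2 n)
  rcases lt_or_ge n' N with h | h
  · have h1 : a n' ≤ ∑ i ∈ Finset.range N, a i :=
      Finset.single_le_sum (fun _ _ => Nat.zero_le _) (Finset.mem_range.2 h)
    have h2 : m * ∑ i ∈ Finset.range N, a i ≤ Nat.log 2 n := by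
      have := Nat.log_mono_right (b := 2) (show 2 ^ (m * ∑ i ∈ Finset.range N, a i) ≤ n by omega)
      rwa [Nat.log_pow (by norm_num)] at this
    exact (Nat.mul_le_mul_left _ h1).trans h2
  · have h1 := hN n' h
    have h2 : 1 ≤ Nat.log 2 n := Nat.log_pos (by norm_num) (by omega)
    have h3 : Nat.log 2 n' ≤ (Nat.log 2 n + 1) * m := by
      have h4 : n ≤ 2 ^ (Nat.log 2 n + 1) := (Nat.lt_pow_succ_log_self (by norm_num) n).le
      have h5 : n' ≤ 2 ^ ((Nat.log 2 n + 1) * m) := by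
        rw [pow_mul]
        exact hn'.trans (Nat.pow_le_pow_left h4 m)
      have := Nat.log_mono_right (b := 2) h5
      rwa [Nat.log_pow (by norm_num)] at this
    have h6 : (m + 1) * (2 * (m + 1) * a n') ≤ (m + 1) * (2 * Nat.log 2 n) := by
      calc (m + 1) * (2 * (m + 1) * a n') = 2 * (m + 1) * (m + 1) * a n' := by ring
        _ ≤ Nat.log 2 n' := h1
        _ ≤ (Nat.log 2 n + 1) * m := h3
        _ ≤ (m + 1) * (2 * Nat.log 2 n) := by nlinarith
    have h7 := Nat.le_of_mul_le_mul_left h6 (Nat.succ_pos m)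
    have h8 : 2 * ((m + 1) * a n') ≤ 2 * Nat.log 2 n := by
      calc 2 * ((m + 1) * a n') = 2 * (m + 1) * a n' := by ring
        _ ≤ _ := h7
    have h9 := Nat.le_of_mul_le_mul_left h8 (by norm_num)
    exact (Nat.mul_le_mul_right _ (Nat.le_succ m)).trans h9

end Pool.Agent.J6H43.KS
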