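import Pool.Agent.J6H43.KS.Mem

/-!
# Every separator decides `SAT` after padding
-/

set_option autoImplicit false
set_option maxHeartbeats 4000000

namespace Pool.Agent.J6H43.KS

open Pool.Agent.NPC hiding SAT
open Pool.Agent.H695R2 Pool.Agent.H695R2.IsoImp Pool.Agent.J6H27.KS Turing Filter
open Pool.Agent.H660R2.NX

theorem sep_of_agree {A S : Set (List Bool)} (hS : InP S) (hSK : ∀ x ∈ A, (x ∈ S ↔ x ∈ SAT)) :
    PolySeparable (A ∩ SAT) (A ∩ SATᶜ) := by
  refine ⟨S, hS, fun x hx => (hSK x hx.1).2 hx.2, ?_⟩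
  rw [Set.eq_empty_iff_forall_notMem]
  rintro x ⟨h1, h2, h3⟩
  exact h3 ((hSK x h2).1 h1)

theorem agree_pad {U : Mach} {c : ℕ}
    (hU : ∀ M : Mach, ∃ (code : List Bool → List Bool) (d : ℕ) (q : Polynomial ℕ),
      (∀ y, (code y).length ≤ c * y.length + d) ∧
      ∀ y x t, M.Outputs y x t → U.Outputs (code y) x (q.eval (y.length + t)))
    {g G : ℕ → ℕ}
    (hg : ∀ᶠ n in atTop, (4 * c + 1) * Nat.log 2 (Nat.log 2 (Nat.log 2 n)) ≤ g n)
    (hG : ∀ k : ℕ, ∀ᶠ n in atTop, n ^ k ≤ G n)
    {S : Set (List Bool)} (hS : InP S) (hSK : ∀ x ∈ K U g G, (x ∈ S ↔ x ∈ SAT)) :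
    ∀ᶠ j in atTop, ∀ x : List Bool, x.length ≤ 2 ^ 2 ^ j →
      (negs (2 ^ 2 ^ j) ++ x ∈ S ↔ x ∈ SAT) := by
  have hP : PEqNP := peqnp_of_separable hU hg hG (sep_of_agree hS hSK)
  obtain ⟨VS, hVS, hS'⟩ := hS
  obtain ⟨VT, hVT, hT'⟩ := (hP SAT).2 inNP_SAT
  -- tests on strings
  let dS : List Bool → Bool := fun x => decide (VS x = [true])
  let dT : List Bool → Bool := fun x => decide (VT x = [true])
  have hdS : Poly dS := Poly.dec_eq (poly_of_polyTime hVS) (NPC.Poly.const _)
  have hdT : Poly dT := Poly.dec_eq (poly_of_polyTime hVT) (NPC.Poly.const _)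
  have hdS' : ∀ x, dS x = true ↔ x ∈ S := fun x => by
    simp only [dS, decide_eq_true_eq]
    exact (hS' x).symm
  have hdT' : ∀ x, dT x = true ↔ x ∈ SAT := fun x => by
    simp only [dT, decide_eq_true_eq]
    exact (hT' x).symm
  -- the test of satisfiability
  let s : BF → Bool := fun φ => dT (bits φ)
  have hs : Poly s := by
    have h0 : PC (bits : BF → List Bool) (fun x : List Bool => x) (fun φ => bits φ) := by
      obtain ⟨c, p, h⟩ := PC.id (ea := (bits : BF → List Bool))
      exact ⟨c, p, h⟩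
    have h1 : Poly (fun φ : BF => (bits φ : List Bool)) :=
      PC.comp (g := fun x => x) (f := fun φ : BF => (bits φ : List Bool)) PC.rawIn h0
    exact hdT.comp h1
  have hs' : ∀ φ, s φ = true ↔ Sat φ := fun φ => (hdT' _).trans bits_mem_lang
  -- the errors of `S` on padded strings
  let W : List Unit × List Bool → Bool := fun a =>
    decide ((strip a.2).length ≤ a.1.length) &&
      !(decide (dT (strip a.2) = dS (negs a.1.length ++ strip a.2)))
  have hup : UPoly (fun U : List Unit => U.length) := UPoly.length Poly.id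
  have hst : Poly (fun a : List Unit × List Bool => strip a.2) :=
    poly_strip.comp (Poly.snd Poly.id)
  have hW : Poly W := by
    have h1 : Poly (fun a : List Unit × List Bool => dT (strip a.2)) := hdT.comp hst
    have h2 : Poly (fun a : List Unit × List Bool => negs a.1.length) :=
      poly_negs (hup.comp (Poly.fst Poly.id))
    have h4 : Poly (fun a : List Unit × List Bool => decide ((strip a.2).length ≤ a.1.length)) := by
      fun_prop
    exact Poly.and h4 (Poly.not (Poly.dec_eq h1 (hdS.comp (h2.append hst))))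
  have hlen : UPoly (fun U : List Unit => U.length + 1) := UPoly.add hup (UPoly.const 1)
  obtain ⟨F, hF, hF'⟩ := exists_family hW hlen
  let t : List Unit → List Bool → Bool := fun U p => s (F (U, p))
  have ht : Poly (fun x : List Unit × List Bool => t x.1 x.2) := hs.comp hF
  have hres := poly_search ht hlen
  let H : List Unit → List Bool := fun U =>
    negs U.length ++ strip ((stp (t U))^[U.length + 1] [])
  have hH : Poly H := (poly_negs hup).append (poly_strip.comp hres)
  have hHlen : ∀ n : ℕ, n ≤ (H (List.replicate n ())).length := by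
    intro n
    simp only [H, List.length_append, length_negs, List.length_replicate]
    omega
  filter_upwards [mem_K' hU hg hG hH hHlen] with j hj x hx
  generalize 2 ^ 2 ^ j = n at hj hx
  by_contra hne
  have hcorr := search_correct (t := t (List.replicate n ()))
    (W := fun u => u.length = n + 1 ∧ W (List.replicate n (), u) = true) (len := n + 1)
    (fun u hu => hu.1) (by
      refine ⟨pad n x, length_pad hx, ?_⟩
      simp only [W, List.length_replicate, strip_pad, Bool.and_eq_true, decide_eq_true_eq,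
        Bool.not_eq_true', decide_eq_false_iff_not]
      refine ⟨hx, fun h => hne ?_⟩
      rw [← hdS', ← h, hdT'])
    (by
      intro τ _
      refine (hs' _).trans ((hF' _ _).trans ?_)
      rw [List.length_replicate])
  obtain ⟨h1, h2⟩ := hcorr
  have h3 := hSK _ hj
  simp only [H, List.length_replicate] at h3
  rw [negs_append_mem] at h3
  simp only [W, List.length_replicate, Bool.and_eq_true, decide_eq_true_eq,
    Bool.not_eq_true', decide_eq_false_iff_not] at h2
  apply h2.2
  rw [Bool.eq_iff_iff, hdT', hdS']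
  exact h3.symm

theorem agree_padD {S : Set (List Bool)}
    (h : ∀ᶠ j in atTop, ∀ x : List Bool, x.length ≤ 2 ^ 2 ^ j →
      (negs (2 ^ 2 ^ j) ++ x ∈ S ↔ x ∈ SAT)) :
    ∀ᶠ n in atTop, ∀ x : List Bool, x.length = n → (padD x ∈ S ↔ x ∈ SAT) := by
  obtain ⟨j₀, hj₀⟩ := eventually_atTop.1 h
  refine eventually_atTop.2 ⟨2 ^ 2 ^ j₀, fun n hn x hx => ?_⟩
  have h1 : j₀ ≤ Nat.clog 2 (Nat.clog 2 x.length) := le_clog_clog (by rw [hx]; exact hn)
  exact hj₀ _ h1 x (le_D _)

end Pool.Agent.J6H43.KS
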