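import Pool.Agent.J6H43.KS.Agree

/-!
# Communication complexity of the separators
-/

set_option autoImplicit false
set_option maxHeartbeats 4000000

namespace Pool.Agent.J6H43.KS

open Pool.Agent.NPC hiding SAT
open Pool.Agent.H695R2 Pool.Agent.H695R2.IsoImp Pool.Agent.J6H27.KS Turing Filter

/-- the literal `x_i` (for `b = true`) or `¬ x_i`, written with the same signs -/
def lit (i : ℕ) (b : Bool) : BF :=
  if b = true then BF.and (BF.var i) (BF.neg (BF.neg (BF.var i)))
  else BF.and (BF.neg (BF.var i)) (BF.neg (BF.var i))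

theorem eval_lit (σ : ℕ → Bool) (i : ℕ) (b : Bool) : (lit i b).eval σ = true ↔ σ i = b := by
  cases b <;> simp [lit, BF.eval]

/-- the conjunction of the literals given by `α` -/
def conj (α : ℕ → Bool) : ℕ → BF
  | 0 => topF
  | r + 1 => BF.and (lit r (α r)) (conj α r)

theorem eval_conj (σ α : ℕ → Bool) (r : ℕ) :
    (conj α r).eval σ = true ↔ ∀ i < r, σ i = α i := by
  induction r with
  | zero => simp [conj, eval_topF]
  | succ r ih =>
    simp only [conj, BF.eval, Bool.and_eq_true, eval_lit, ih]
    constructor
    · rintro ⟨h1, h2⟩ i hi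
      rcases Nat.lt_succ_iff_lt_or_eq.1 hi with h | h
      · exact h2 i h
      · rw [h, h1]
    · intro h
      exact ⟨h r (Nat.lt_succ_self r), fun i hi => h i (Nat.lt_succ_of_lt hi)⟩

/-- the code of a word, without the end mark -/
def tk (l : List (Option Bool ⊕ ℕ)) : List Bool := l.flatMap (fun t => true :: bits t)

theorem bits_append (l l' : List (Option Bool ⊕ ℕ)) : bits (l ++ l') = tk l ++ bits l' := by
  induction l with
  | nil => rfl
  | cons t l ih =>
    have h : bits (t :: (l ++ l')) = true :: (bits t ++ bits (l ++ l')) := rfl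
    rw [List.cons_append, h, ih]
    simp [tk]

/-- the first half: the code of `∧` and of the first formula -/
def xw (α : ℕ → Bool) (r : ℕ) : List Bool := tk (Sum.inl (some true) :: (conj α r).polish)

/-- the second half: the code of the second formula -/
def yw (α : ℕ → Bool) (r : ℕ) : List Bool := bits (conj α r)

theorem xw_append_yw (α β : ℕ → Bool) (r : ℕ) :
    xw α r ++ yw β r = bits (BF.and (conj α r) (conj β r)) := by
  unfold xw yw
  have h : bits (BF.and (conj α r) (conj β r)) =
      bits ((Sum.inl (some true) :: (conj α r).polish) ++ (conj β r).polish) := rfl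
  rw [h, bits_append]
  rfl

theorem mem_SAT (α β : ℕ → Bool) (r : ℕ) :
    xw α r ++ yw β r ∈ SAT ↔ ∀ i < r, α i = β i := by
  rw [xw_append_yw]
  refine bits_mem_lang.trans ?_
  constructor
  · rintro ⟨σ, hσ⟩ i hi
    simp only [BF.eval, Bool.and_eq_true, eval_conj] at hσ
    rw [← hσ.1 i hi, hσ.2 i hi]
  · intro h
    refine ⟨α, ?_⟩
    simp only [BF.eval, Bool.and_eq_true, eval_conj]
    exact ⟨fun _ _ => trivial, fun i hi => h i hi⟩

theorem tk_append (l l' : List (Option Bool ⊕ ℕ)) : tk (l ++ l') = tk l ++ tk l' := by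
  simp [tk]

theorem tk_cons (t : Option Bool ⊕ ℕ) (l : List (Option Bool ⊕ ℕ)) :
    tk (t :: l) = (true :: bits t) ++ tk l := by
  simp [tk]

/-- the length of the code of the conjunction -/
def cl : ℕ → ℕ
  | 0 => 22
  | r + 1 => 34 + 2 * sz r + cl r

theorem length_tk_conj (α : ℕ → Bool) (r : ℕ) :
    (tk (conj α r).polish).length = cl r := by
  induction r with
  | zero => rfl
  | succ r ih =>
    have e1 : (conj α (r + 1)).polish =
        Sum.inl (some true) :: ((lit r (α r)).polish ++ (conj α r).polish) := rfl
    rw [e1, tk_cons, tk_append, List.length_append, List.length_append, ih]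
    have e2 : (tk (lit r (α r)).polish).length = 26 + 2 * sz r := by
      cases α r
      · simp [lit, BF.polish, tk, bits_length]
        omega
      · simp [lit, BF.polish, tk, bits_length]
        omega
    have e3 : (true :: bits (Sum.inl (some true) : Option Bool ⊕ ℕ)).length = 8 := rfl
    rw [e2, e3]
    unfold cl
    cases r <;> simp only [cl] <;> omega

theorem cl_le (r : ℕ) : cl r ≤ 22 + 40 * (r * r) := by
  induction r with
  | zero => simp [cl]
  | succ r ih =>
    have f1 := sz_nat_le r
    have f2 := Poly.size_le_self r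
    have e : cl (r + 1) = 34 + 2 * sz r + cl r := rfl
    rw [e]
    nlinarith

theorem le_cl (r : ℕ) : r ≤ cl r := by
  induction r with
  | zero => simp
  | succ r ih =>
    have e : cl (r + 1) = 34 + 2 * sz r + cl r := rfl
    omega

theorem length_xw (α : ℕ → Bool) (r : ℕ) : (xw α r).length = 8 + cl r := by
  unfold xw
  rw [tk_cons, List.length_append, length_tk_conj]
  rfl

theorem length_yw (α : ℕ → Bool) (r : ℕ) : (yw α r).length = cl r + 1 := by
  have h := bits_append (conj α r).polish []
  rw [List.append_nil] at h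
  have h2 : yw α r = bits (conj α r).polish := rfl
  rw [h2, h, List.length_append, length_tk_conj]
  rfl

/-- extension of a finite assignment -/
def ext {r : ℕ} (α : Fin r → Bool) (i : ℕ) : Bool := if h : i < r then α ⟨i, h⟩ else false

theorem ext_eq {r : ℕ} (α β : Fin r → Bool) : (∀ i < r, ext α i = ext β i) ↔ α = β := by
  constructor
  · intro h
    funext i
    have := h i i.2
    simpa [ext, i.2] using this
  · rintro rfl i _
    rfl

theorem comm {S : Set (List Bool)}
    (h : ∀ᶠ n in atTop, ∀ x : List Bool, x.length = n → (padD x ∈ S ↔ x ∈ SAT)) :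
    ∀ᶠ r in atTop, ∃ a b : ℕ, a + b ≤ r ^ 7 ∧ ∀ R : ℕ, Covers S a b R → 2 ^ r ≤ R := by
  obtain ⟨n₀, h₀⟩ := eventually_atTop.1 h
  refine eventually_atTop.2 ⟨n₀ + 133, fun r hr => ?_⟩
  set N := 9 + 2 * cl r with hN
  have hN1 : N ≤ r ^ 3 := by
    have e1 := cl_le r
    have e2 : r ^ 3 = r * (r * r) := by ring
    rw [e2]
    nlinarith
  have hNn : n₀ ≤ N := by
    have := le_cl r
    omega
  refine ⟨8 * D N + (8 + cl r), cl r + 1, ?_, ?_⟩
  · have e1 : N ≤ N ^ 2 := by nlinarith
    have e2 : D N ≤ N ^ 2 := D_le (by omega)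
    have e3 : N ^ 2 ≤ r ^ 6 := by
      have := Nat.pow_le_pow_left hN1 2
      rwa [← pow_mul] at this
    have e4 : 9 * r ^ 6 ≤ r ^ 7 := by
      have : r ^ 7 = r * r ^ 6 := by ring
      rw [this]
      exact Nat.mul_le_mul_right _ (by omega)
    omega
  · rintro R ⟨A, B, hAB⟩
    have key : ∀ α β : Fin r → Bool,
        ((negs (D N) ++ xw (ext α) r) ++ yw (ext β) r ∈ S ↔ α = β) := by
      intro α β
      have e1 : (xw (ext α) r ++ yw (ext β) r).length = N := by
        rw [List.length_append, length_xw, length_yw]
        omega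
      have e2 := h₀ N hNn _ e1
      unfold padD at e2
      rw [e1, ← List.append_assoc, mem_SAT, ext_eq] at e2
      exact e2
    have hlen : ∀ α : Fin r → Bool,
        (negs (D N) ++ xw (ext α) r).length = 8 * D N + (8 + cl r) := by
      intro α
      rw [List.length_append, length_negs, length_xw]
    have h1 : ∀ α : Fin r → Bool, ∃ i : Fin R, negs (D N) ++ xw (ext α) r ∈ A i ∧
        yw (ext α) r ∈ B i := fun α =>
      (hAB _ _ (hlen α) (length_yw _ _)).1 ((key α α).2 rfl)
    choose f hf using h1
    have hinj : Function.Injective f := by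
      intro α β hαβ
      refine (key α β).1 ((hAB _ _ (hlen α) (length_yw _ _)).2 ⟨f α, (hf α).1, ?_⟩)
      rw [hαβ]
      exact (hf β).2
    have := Fintype.card_le_of_injective f hinj
    simpa using this

/-- A set is covered by as many rectangles as it has elements. -/
theorem covers_ncard (S : Set (List Bool)) (a b : ℕ) :
    Covers S a b {x | x ∈ S ∧ x.length = a + b}.ncard := by
  have hfin : {x : List Bool | x ∈ S ∧ x.length = a + b}.Finite :=
    (List.finite_length_eq Bool (a + b)).subset fun x hx => hx.2
  haveI : Finite {x : List Bool | x ∈ S ∧ x.length = a + b} := hfin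
  have hc : Nat.card {x : List Bool | x ∈ S ∧ x.length = a + b} =
    {x : List Bool | x ∈ S ∧ x.length = a + b}.ncard := rfl
  rw [← hc]
  let e := Finite.equivFin {x : List Bool | x ∈ S ∧ x.length = a + b}
  refine ⟨fun i => {(e.symm i : List Bool).take a}, fun i => {(e.symm i : List Bool).drop a},
    fun x y hx hy => ?_⟩
  have t1 : (x ++ y).take a = x := by rw [← hx, List.take_left]
  have t2 : (x ++ y).drop a = y := by rw [← hx, List.drop_left]
  constructor
  · intro h
    refine ⟨e ⟨x ++ y, h, by rw [List.length_append, hx, hy]⟩, ?_, ?_⟩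
    · show x ∈ ({(e.symm (e ⟨x ++ y, _⟩) : List Bool).take a} : Set (List Bool))
      rw [Equiv.symm_apply_apply, Set.mem_singleton_iff]
      exact t1.symm
    · show y ∈ ({(e.symm (e ⟨x ++ y, _⟩) : List Bool).drop a} : Set (List Bool))
      rw [Equiv.symm_apply_apply, Set.mem_singleton_iff]
      exact t2.symm
  · rintro ⟨i, h1, h2⟩
    have h1' : x = (e.symm i : List Bool).take a := h1
    have h2' : y = (e.symm i : List Bool).drop a := h2
    rw [h1', h2', List.take_append_drop]
    exact (e.symm i).2.1

end Pool.Agent.J6H43.KS
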