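import Pool.Agent.J6H27.KS.Defs
import Pool.Agent.H568R2.Defs

/-!
# Separators and padding: definitions
-/

set_option autoImplicit false
set_option maxHeartbeats 4000000

namespace Pool.Agent.J6H43.KS

open Pool.Agent.NPC hiding SAT
open Pool.Agent.J6H27.KS Filter DomAC0

/-- The code of `2 m` negation signs: `m` copies of `11001100`. -/
def negs (m : ℕ) : List Bool :=
  (List.replicate m [true, true, false, false, true, true, false, false]).flatten

/-- The least number of the form `2 ^ 2 ^ j` that is at least `n`. -/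
def D (n : ℕ) : ℕ := 2 ^ 2 ^ Nat.clog 2 (Nat.clog 2 n)

/-- The string `x` preceded by `2 D(|x|)` negation signs. -/
def padD (x : List Bool) : List Bool := negs (D x.length) ++ x

/-- The family of languages `C` is closed under the inverse image of the padding `padD` and
under finite changes. -/
structure PadClosed (C : Set (Set (List Bool))) : Prop where
  pad : ∀ S ∈ C, {x | padD x ∈ S} ∈ C
  fin : ∀ S ∈ C, ∀ S' : Set (List Bool), {x | ¬ (x ∈ S' ↔ x ∈ S)}.Finite → S' ∈ C

/-- Among the strings `x ++ y` with `|x| = a` and `|y| = b`, `S` contains those of some `R`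
rectangles: the nondeterministic communication complexity of `S` for this splitting of the strings
of length `a + b` is at most `log R` (rounded up). -/
def Covers (S : Set (List Bool)) (a b R : ℕ) : Prop :=
  ∃ A B : Fin R → Set (List Bool), ∀ x y : List Bool, x.length = a → y.length = b →
    (x ++ y ∈ S ↔ ∃ i, x ∈ A i ∧ y ∈ B i)

/-- The circuit `C` with `L` inputs decides which strings of length `L` are in `S`. -/
def Computes {L : ℕ} (C : Circuit (Fin L)) (S : Set (List Bool)) : Prop :=
  ∀ x : Fin L → Bool, C.eval x = true ↔ List.ofFn x ∈ S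

/-- Nonuniform `AC⁰`: circuits with NOT gates and with AND and OR gates of unbounded fan-in, of
constant depth and polynomial size. -/
def InAC0 (S : Set (List Bool)) : Prop :=
  ∃ j k : ℕ, ∀ L : ℕ, ∃ A : Circuit (Fin L), A.depth ≤ j ∧ A.size ≤ L ^ k + k ∧ Computes A S

/-- `S` and `SAT` agree on the set `A`, that is, `S` separates `A ∩ SAT` from the rest of `A`. -/
def Agree (A S : Set (List Bool)) : Prop := ∀ x ∈ A, (x ∈ S ↔ x ∈ SAT)

/-- The properties of the polynomial-time sets which agree with `SAT` on `A`. -/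
structure Conclusion (A : Set (List Bool)) : Prop where
  /-- `S` decides `SAT` after padding -/
  padding : ∀ S : Set (List Bool), InP S → Agree A S → {x | ¬ (padD x ∈ S ↔ x ∈ SAT)}.Finite
  /-- circuits of constant depth for `S` are exponentially large -/
  depth : ∀ S : Set (List Bool), InP S → Agree A S → ∀ j : ℕ, ∀ᶠ h in atTop, ∃ L : ℕ, h ≤ L ∧
    L ≤ h ^ (8 * j + 11) ∧ ∀ C : Circuit (Fin L), C.depth ≤ j → Computes C S → 2 ^ h ≤ C.size
  /-- `S` is dense and has a large nondeterministic communication complexity -/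
  comm : ∀ S : Set (List Bool), InP S → Agree A S → ∀ᶠ r in atTop, ∃ a b : ℕ, a + b ≤ r ^ 7 ∧
    2 ^ r ≤ {x | x ∈ S ∧ x.length = a + b}.ncard ∧ ∀ R : ℕ, Covers S a b R → 2 ^ r ≤ R
  /-- no separator is in `AC⁰` -/
  ac0 : ¬ ∃ S : Set (List Bool), InP S ∧ InAC0 S ∧ A ∩ SAT ⊆ S ∧ S ∩ SATᶜ = ∅
  /-- separators in other classes -/
  transfer : ∀ F : Set (Set (List Bool)), PadClosed F →
    ((∃ S ∈ F, InP S ∧ Agree A S) ↔ PEqNP ∧ SAT ∈ F) ∧
    ((∃ S ∈ F, InP S ∧ A ∩ SAT ⊆ S ∧ S ∩ SATᶜ = ∅) ↔ PEqNP ∧ SAT ∈ F)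

end Pool.Agent.J6H43.KS
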