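import Pool.Agent.J6H43.KS.Comm

/-!
# Padding of formulas to an exact length
-/

set_option autoImplicit false
set_option maxHeartbeats 4000000

namespace Pool.Agent.J6H43.KS

open Pool.Agent.NPC hiding SAT
open Pool.Agent.H695R2 Pool.Agent.H695R2.IsoImp Pool.Agent.J6H27.KS Turing Filter
open Pool.Agent.H660R2.NX

/-- a valid formula whose code has length `34 + |m|` -/
def tpl (m : ℕ) : BF := BF.or (BF.var m) topF

theorem eval_tpl (σ : ℕ → Bool) (m : ℕ) : (tpl m).eval σ = true := by
  simp [tpl, BF.eval, eval_topF]

/-- the index of the variable which corrects the length modulo `8` -/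
def cm (l : ℕ) : ℕ :=
  if l % 8 = 1 then 2 else if l % 8 = 5 then 8 else if l % 8 = 3 then 1 else 0

/-- correct the length of the code modulo `8` -/
def fixF (φ : BF) : BF := BF.and φ (tpl (cm (bits φ).length))

theorem sat_fixF (φ : BF) : Sat (fixF φ) ↔ Sat φ := by
  unfold Sat fixF
  simp [BF.eval, eval_tpl]

theorem length_bits_and (φ ψ : BF) :
    (bits (BF.and φ ψ)).length + 1 = 8 + (bits φ).length + (bits ψ).length := by
  have h1 := bits_append (Sum.inl (some true) :: φ.polish) ψ.polish
  have h2 : bits (BF.and φ ψ) = bits ((Sum.inl (some true) :: φ.polish) ++ ψ.polish) := rfl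
  have h3 := bits_append φ.polish []
  rw [List.append_nil] at h3
  have h4 : bits φ = bits φ.polish := rfl
  have h5 : bits ψ = bits ψ.polish := rfl
  have e3 : (true :: bits (Sum.inl (some true) : Option Bool ⊕ ℕ)).length = 8 := rfl
  have e4 : (bits ([] : List (Option Bool ⊕ ℕ))).length = 1 := rfl
  rw [h2, h1, tk_cons, h4, h3, h5, List.length_append, List.length_append, List.length_append, e3,
    e4]
  omega

/-- codes of trees have odd length -/
theorem T_odd (t : T) : t.enc.length % 2 = 1 := by
  induction t with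
  | nil => rfl
  | node l r ihl ihr =>
    simp only [T.enc, List.length_cons, List.length_append]
    omega

theorem length_fixF (φ : BF) : (bits (fixF φ)).length % 8 = 1 ∧
    (bits (fixF φ)).length ≤ (bits φ).length + 60 := by
  have h1 := length_bits_and φ (tpl (cm (bits φ).length))
  have h2 : (bits φ).length % 2 = 1 := T_odd _
  unfold fixF
  generalize (bits φ).length = l at h1 h2
  have e0 : (bits (tpl 0)).length = 35 := rfl
  have e1 : (bits (tpl 1)).length = 39 := rfl
  have e2 : (bits (tpl 2)).length = 41 := rfl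
  have e8 : (bits (tpl 8)).length = 45 := rfl
  unfold cm at h1 ⊢
  split_ifs at h1 ⊢ with h3 h4 h5
  · omega
  · omega
  · omega
  · omega

/-- the exact length -/
def E (k : ℕ) : ℕ := 8 * k + 65

/-- pad the formula to the exact length `E k` -/
def padE (k : ℕ) (φ : BF) : BF := padF ((E k - (bits (fixF φ)).length) / 8) (fixF φ)

theorem sat_padE {k : ℕ} {φ : BF} : Sat (padE k φ) ↔ Sat φ := by
  unfold padE
  rw [sat_padF, sat_fixF]

theorem bits_padF (φ : BF) (m : ℕ) : bits (padF m φ) = negs m ++ bits φ := by
  induction m with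
  | zero => rfl
  | succ m ih =>
    have h : padF (m + 1) φ = BF.neg (BF.neg (padF m φ)) := by
      unfold padF
      rw [Function.iterate_succ_apply']
    rw [h, bits_neg, bits_neg, ih, negs_succ]
    simp [List.append_assoc]

theorem length_padE {k : ℕ} {φ : BF} (h : (bits φ).length ≤ k) : (bits (padE k φ)).length = E k := by
  have h1 := length_fixF φ
  unfold padE
  rw [bits_padF, List.length_append, length_negs]
  unfold E
  omega

theorem poly_bitsLen {α : Type} [TEnc α] {φ : α → BF} (hφ : Poly φ) :
    Poly (fun a => (bits (φ a)).length) := by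
  have h0 : PC (bits : BF → List Bool) (fun x : List Bool => x) (fun φ => bits φ) := by
    obtain ⟨c, p, h⟩ := PC.id (ea := (bits : BF → List Bool))
    exact ⟨c, p, h⟩
  have h1 : Poly (fun φ : BF => (bits φ : List Bool)) :=
    PC.comp (g := fun x => x) (f := fun φ : BF => (bits φ : List Bool)) PC.rawIn h0
  have h2 : Poly (fun φ : BF => (bits φ).length) := Poly.length h1
  exact h2.comp hφ

theorem upoly_bitsLen {α : Type} [TEnc α] {φ : α → BF} (hφ : Poly φ) :
    UPoly (fun a => (bits (φ a)).length) := by
  have h0 : PC (bits : BF → List Bool) (fun x : List Bool => x) (fun φ => bits φ) := by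
    obtain ⟨c, p, h⟩ := PC.id (ea := (bits : BF → List Bool))
    exact ⟨c, p, h⟩
  have h1 : Poly (fun φ : BF => (bits φ : List Bool)) :=
    PC.comp (g := fun x => x) (f := fun φ : BF => (bits φ : List Bool)) PC.rawIn h0
  exact UPoly.length (h1.comp hφ)

theorem poly_fixF {α : Type} [TEnc α] {φ : α → BF} (hφ : Poly φ) : Poly (fun a => fixF (φ a)) := by
  have h1 := poly_bitsLen hφ
  have h2 : Poly (fun a => cm (bits (φ a)).length) := by
    unfold cm
    have e8 := Poly.mod h1 (NPC.Poly.const 8)
    have c1 := Poly.dec_eq e8 (NPC.Poly.const 1)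
    have c2 := Poly.dec_eq e8 (NPC.Poly.const 5)
    have c3 := Poly.dec_eq e8 (NPC.Poly.const 3)
    fun_prop
  unfold fixF tpl
  have h3 : Poly (fun _ : α => topF) := NPC.Poly.const _
  fun_prop

theorem poly_padE {α : Type} [TEnc α] {k : α → ℕ} {φ : α → BF} (hk : UPoly k) (hφ : Poly φ) :
    Poly (fun a => padE (k a) (φ a)) := by
  unfold padE
  have h1 := poly_fixF hφ
  refine poly_padF ?_ h1
  have h2 : UPoly (fun a => E (k a)) := by
    unfold E
    exact UPoly.add (UPoly.mul (UPoly.const 8) hk) (UPoly.const 65)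
  refine UPoly.of_le (n := fun a => E (k a)) ?_ h2 (fun a => ?_)
  · exact Poly.div (Poly.sub h2.toPoly (poly_bitsLen h1)) (NPC.Poly.const 8)
  · exact (Nat.div_le_self _ _).trans (Nat.sub_le _ _)

end Pool.Agent.J6H43.KS
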