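import Pool.Agent.J6H43.KS.Parity

/-!
# The bits of the code of the parity formula depend on one variable each
-/

set_option autoImplicit false
set_option maxHeartbeats 4000000

namespace Pool.Agent.J6H43.KS

open Pool.Agent.NPC hiding SAT
open Pool.Agent.H695R2 Pool.Agent.H695R2.IsoImp Pool.Agent.J6H27.KS Turing Filter
open DomAC0 H568R2

section

variable {I : Type}

/-- a word of constant length whose letters depend on one variable each -/
def J1 (F : (I → Bool) → List Bool) : Prop :=
  (∃ n, ∀ w, (F w).length = n) ∧ ∀ p : ℕ, Junta 1 (fun w => (F w).getD p false)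

theorem junta_const (b : Bool) : Junta 1 (fun _ : I → Bool => b) :=
  ⟨∅, by simp, fun _ _ _ => rfl⟩

theorem J1.const (l : List Bool) : J1 (fun _ : I → Bool => l) :=
  ⟨⟨l.length, fun _ => rfl⟩, fun _ => junta_const _⟩

theorem J1.single (i : I) (g : Bool → List Bool) (hg : (g true).length = (g false).length) :
    J1 (fun w : I → Bool => g (w i)) := by
  refine ⟨⟨(g true).length, fun w => ?_⟩, fun p => ⟨{i}, by simp, fun x y hxy => ?_⟩⟩
  · show (g (w i)).length = _
    cases w i
    · exact hg.symm
    · rfl
  · have : x i = y i := hxy i (by simp)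
    simp only [this]

theorem J1.append {F G : (I → Bool) → List Bool} (hF : J1 F) (hG : J1 G) :
    J1 (fun w => F w ++ G w) := by
  obtain ⟨⟨n, hn⟩, hF⟩ := hF
  obtain ⟨⟨m, hm⟩, hG⟩ := hG
  refine ⟨⟨n + m, fun w => by rw [List.length_append, hn, hm]⟩, fun p => ?_⟩
  by_cases hp : p < n
  · have e : (fun w => (F w ++ G w).getD p false) = fun w => (F w).getD p false := by
      funext w
      exact List.getD_append _ _ _ _ (by rw [hn]; exact hp)
    rw [e]
    exact hF p
  · have e : (fun w => (F w ++ G w).getD p false) = fun w => (G w).getD (p - n) false := by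
      funext w
      rw [List.getD_append_right _ _ _ _ (by rw [hn]; omega), hn]
    rw [e]
    exact hG _

end

theorem J1_conj {r : ℕ} : ∀ m ≤ r, J1 (fun w : Fin r → Bool => tk (conj (ext w) m).polish) := by
  intro m
  induction m with
  | zero => intro _; exact J1.const _
  | succ m ih =>
    intro hm
    have h1 : J1 (fun w : Fin r → Bool => tk (lit m (w ⟨m, hm⟩)).polish) := by
      refine J1.single (⟨m, hm⟩ : Fin r) (fun b => tk (lit m b).polish) ?_
      simp [lit, BF.polish, tk, bits_length]
      omega
    have h2 := (J1.const (I := Fin r) (true :: bits (Sum.inl (some true) : Option Bool ⊕ ℕ))).append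
      (h1.append (ih (by omega)))
    have e : (fun w : Fin r → Bool => tk (conj (ext w) (m + 1)).polish) = fun w : Fin r → Bool =>
        (true :: bits (Sum.inl (some true) : Option Bool ⊕ ℕ)) ++
          (tk (lit m (w ⟨m, hm⟩)).polish ++ tk (conj (ext w) m).polish) := by
      funext w
      have e1 : (conj (ext w) (m + 1)).polish =
        Sum.inl (some true) :: ((lit m (ext w m)).polish ++ (conj (ext w) m).polish) := rfl
      have e2 : ext w m = w ⟨m, hm⟩ := by
        have : m < r := hm
        simp [ext, this]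
      rw [e1, tk_cons, tk_append, e2]
    rw [e]
    exact h2

theorem J1_ew (r : ℕ) : J1 (fun w : Fin r → Bool => ew (ext w) r) := by
  have h1 := (J1.const (I := Fin r) (true :: bits (Sum.inl (some true) : Option Bool ⊕ ℕ))).append
    (J1_conj r le_rfl)
  have h2 := h1.append (J1.const (bits (psi r r)))
  have e : (fun w : Fin r → Bool => ew (ext w) r) = fun w : Fin r → Bool =>
      ((true :: bits (Sum.inl (some true) : Option Bool ⊕ ℕ)) ++ tk (conj (ext w) r).polish) ++
        bits (psi r r) := by
    funext w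
    unfold ew xw
    rw [tk_cons]
  rw [e]
  exact h2

theorem J1_pad (r : ℕ) : J1 (fun w : Fin r → Bool => padD (ew (ext w) r)) := by
  have h := (J1.const (I := Fin r) (negs (D (PL r)))).append (J1_ew r)
  have e : (fun w : Fin r → Bool => padD (ew (ext w) r)) = fun w : Fin r → Bool =>
      negs (D (PL r)) ++ ew (ext w) r := by
    funext w
    unfold padD
    rw [length_ew]
  rw [e]
  exact h

theorem ofFn_getD (l : List Bool) {L : ℕ} (hl : l.length = L) :
    List.ofFn (fun p : Fin L => l.getD p false) = l := by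
  subst hl
  apply List.ext_getElem
  · simp
  · intro i h1 h2
    simp [h2]

theorem ac0_cond {L h j : ℕ} (hpoly : j * (L + 1) * (96 * h) ^ j ≤ 2 ^ (2 * h)) {s : ℕ}
    (hs : s < 2 ^ h) : j * (s * (L + s + 1)) * (24 * (4 * h)) ^ j ≤ 2 ^ (4 * h) := by
  have e1 : s * (L + s + 1) ≤ 2 ^ h * (2 ^ h * (L + 1)) := by
    apply Nat.mul_le_mul hs.le
    have h1 : 1 ≤ 2 ^ h := Nat.one_le_two_pow
    nlinarith
  have e2 : 24 * (4 * h) = 96 * h := by ring
  rw [e2]
  calc j * (s * (L + s + 1)) * (96 * h) ^ j ≤ j * (2 ^ h * (2 ^ h * (L + 1))) * (96 * h) ^ j :=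
        Nat.mul_le_mul_right _ (Nat.mul_le_mul_left _ e1)
    _ = (2 ^ h * 2 ^ h) * (j * (L + 1) * (96 * h) ^ j) := by ring
    _ ≤ (2 ^ h * 2 ^ h) * 2 ^ (2 * h) := Nat.mul_le_mul_left _ hpoly
    _ = 2 ^ (4 * h) := by
        rw [← pow_add, ← pow_add]
        congr 1
        ring

/-- The number of variables. -/
def rr (j h : ℕ) : ℕ := 2 * (4 * h) * (24 * (4 * h)) ^ j + 1

/-- the length of the padded codes -/
def LL (j h : ℕ) : ℕ := 8 * D (PL (rr j h)) + PL (rr j h)

theorem size_ge {j h : ℕ} {S : Set (List Bool)} (hh : 1 ≤ h)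
    (hS : ∀ x : List Bool, x.length = PL (rr j h) → (padD x ∈ S ↔ x ∈ SAT))
    (hpoly : j * (LL j h + 1) * (96 * h) ^ j ≤ 2 ^ (2 * h))
    (C : Circuit (Fin (LL j h))) (hd : C.depth ≤ j) (hC : Computes C S) : 2 ^ h ≤ C.size := by
  by_contra hlt
  rw [not_le] at hlt
  have hcond := ac0_cond hpoly hlt
  have hlen : ∀ w : Fin (rr j h) → Bool, (padD (ew (ext w) (rr j h))).length = LL j h := by
    intro w
    rw [length_padD, length_ew]
    rfl
  have hval : ∀ w : Fin (rr j h) → Bool,
      C.eval (fun p : Fin (LL j h) => (padD (ew (ext w) (rr j h))).getD p false) = true ↔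
        pr (ext w) (rr j h) = true := by
    intro w
    rw [hC, ofFn_getD _ (hlen w), hS _ (length_ew _ _), ew_mem]
  have hmain := parity_lb C (fun (w : Fin (rr j h) → Bool) (p : Fin (LL j h)) =>
    (padD (ew (ext w) (rr j h))).getD p false) (fun p => (J1_pad (rr j h)).2 p)
    (j := j) (h := 4 * h) (by omega) hd (by
      intro x i heq
      have h1 := hval x
      have h2 := hval (Pool.Agent.Y601.SSE.flip i x)
      rw [heq] at h2
      have h3 : pr (ext (Pool.Agent.Y601.SSE.flip i x)) (rr j h) =
          xor (pr (ext x) (rr j h)) (decide ((i : ℕ) < rr j h)) := by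
        refine pr_flip _ _ i ?_ ?_ _
        · simp [ext, Pool.Agent.Y601.SSE.flip]
        · intro l hl
          unfold ext
          by_cases hlr : l < rr j h
          · have hne : (⟨l, hlr⟩ : Fin (rr j h)) ≠ i := fun h => hl (by rw [← h])
            simp only [hlr, dif_pos]
            unfold Pool.Agent.Y601.SSE.flip
            rw [Function.update_of_ne hne]
          · simp only [hlr, dif_neg, not_false_iff]
      rw [h3] at h2
      simp only [i.2, decide_true] at h2
      have h4 := h1.symm.trans h2
      cases pr (ext x) (rr j h) <;> simp at h4) (by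
      rw [Fintype.card_fin]
      exact hcond)
  rw [Fintype.card_fin] at hmain
  unfold rr at hmain
  omega

end Pool.Agent.J6H43.KS
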