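import Pool.Agent.J6H43.KS.Pad

/-!
# Polynomial-time constructible strings have short descriptions
-/

set_option autoImplicit false
set_option maxHeartbeats 4000000

namespace Pool.Agent.J6H43.KS

open Pool.Agent.NPC hiding SAT
open Pool.Agent.H695R2 Pool.Agent.H695R2.IsoImp Pool.Agent.J6H27.KS Turing Filter
open Pool.Agent.H660R2.NX

/-- A polynomial-time function of the unary number `2 ^ 2 ^ j` is computed by some machine from the
binary number `j`, in time polynomial in `2 ^ 2 ^ j`. -/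
theorem exists_mach_raw {H : List Unit → List Bool} (hH : Poly H) :
    ∃ (M : Mach) (r : Polynomial ℕ), ∀ j : ℕ,
      M.Outputs (bits (j, ())) (H (List.replicate (2 ^ 2 ^ j) ())) (r.eval (2 ^ 2 ^ j)) := by
  have hB : ∀ a : ℕ × Unit, (bits a).length ≤ sz a + 2 ^ 2 ^ a.1 := by
    intro a; rw [bits_length]; exact Nat.le_add_right _ _
  have e1 : ∀ n : ℕ, n ≤ 2 ^ n := fun n => Nat.lt_two_pow_self.le
  have h1 : TB (bits : ℕ × Unit → List Bool) (bits : List Unit × Unit → List Bool)
      (fun a => sz a + 2 ^ 2 ^ a.1) (fun a => (List.replicate a.1 (), a.2)) :=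
    tb_unary.mono fun a => by
      have f1 := e1 a.1
      have f2 := e1 (2 ^ a.1)
      omega
  have h2 := tb_pow h1 hB (fun a => by
    have f2 := e1 (2 ^ a.1)
    omega)
  have h3 := tb_pow h2 hB (fun a => Nat.le_add_left _ _)
  have h4 : PC (bits : List Unit × Unit → List Bool) (fun x : List Bool => x) (fun s => H s.1) := by
    have h5 : Poly (fun s : List Unit × Unit => H s.1) := hH.comp (Poly.fst Poly.id)
    exact PC.comp (g := fun x : List Bool => x) (f := fun s : List Unit × Unit => H s.1)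
      R591.rawOut h5
  obtain ⟨c, p, h⟩ := TB.comp h4 h3 hB
  refine ⟨ofCmd c, p.comp (Polynomial.C 10 * Polynomial.X + Polynomial.C 20) + 1, fun j => ?_⟩
  obtain ⟨h6⟩ := ofCmd_outputs (h (j, ()))
  refine ⟨outputs_conv rfl rfl ?_ h6⟩
  simp only [Polynomial.eval_add, Polynomial.eval_comp, Polynomial.eval_mul, Polynomial.eval_C,
    Polynomial.eval_X, Polynomial.eval_one]
  refine Nat.add_le_add_right (eval_mono p ?_) 1
  have f1 := sz_nat_le j
  have f2 := Poly.size_le_self j
  have f3 : sz () = 1 := rfl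
  have f4 := e1 j
  have f5 := e1 (2 ^ j)
  rw [sz_pair, f3]
  omega

theorem mem_K' {U : Mach} {c : ℕ}
    (hU : ∀ M : Mach, ∃ (code : List Bool → List Bool) (d : ℕ) (q : Polynomial ℕ),
      (∀ y, (code y).length ≤ c * y.length + d) ∧
      ∀ y x t, M.Outputs y x t → U.Outputs (code y) x (q.eval (y.length + t)))
    {g G : ℕ → ℕ}
    (hg : ∀ᶠ n in atTop, (4 * c + 1) * Nat.log 2 (Nat.log 2 (Nat.log 2 n)) ≤ g n)
    (hG : ∀ k : ℕ, ∀ᶠ n in atTop, n ^ k ≤ G n)
    {H : List Unit → List Bool} (hH : Poly H)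
    (hlen : ∀ n : ℕ, n ≤ (H (List.replicate n ())).length) :
    ∀ᶠ j in atTop, H (List.replicate (2 ^ 2 ^ j) ()) ∈ K U g G := by
  obtain ⟨M, r, hM⟩ := exists_mach_raw hH
  obtain ⟨code, d, qq, hcode, hsim⟩ := hU M
  obtain ⟨k, hk⟩ := poly_le_pow (qq.comp (Polynomial.C 4 * Polynomial.X + Polynomial.C 20 + r))
  obtain ⟨n₁, h₁⟩ := eventually_atTop.1 hg
  obtain ⟨n₂, h₂⟩ := eventually_atTop.1 (hG k)
  refine eventually_atTop.2 ⟨n₁ + n₂ + 2 ^ (7 * c + d) + 2, fun j hj => ?_⟩
  have hpos : 0 < 2 ^ (7 * c + d) := by positivity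
  set x := H (List.replicate (2 ^ 2 ^ j) ()) with hx
  have hN : 2 ^ 2 ^ j ≤ x.length := hlen _
  have hj1 : j ≤ 2 ^ 2 ^ j := Nat.lt_two_pow_self.le.trans Nat.lt_two_pow_self.le
  have hjN : j ≤ x.length := hj1.trans hN
  have hsz : (bits (j, ())).length ≤ 4 * j.size + 3 := by
    have f1 := sz_nat_le j
    have f3 : sz () = 1 := rfl
    rw [bits_length, sz_pair, f3]
    omega
  refine ⟨code (bits (j, ())), ?_, qq.eval ((bits (j, ())).length + r.eval (2 ^ 2 ^ j)), ?_,
    hsim _ _ _ (hM j)⟩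
  · refine le_trans ?_ (h₁ x.length (by omega))
    have e1 := hcode (bits (j, ()))
    have e2 := size_le_log j
    have e3 : Nat.log 2 j ≤ Nat.log 2 (Nat.log 2 (Nat.log 2 x.length)) :=
      Nat.log_mono_right (log_log_le hN)
    have e4 : 7 * c + d ≤ Nat.log 2 j := by
      have := Nat.log_mono_right (b := 2) (show 2 ^ (7 * c + d) ≤ j by omega)
      rwa [Nat.log_pow (by norm_num)] at this
    calc (code (bits (j, ()))).length ≤ c * (4 * (Nat.log 2 j + 1) + 3) + d := by
          refine e1.trans (Nat.add_le_add_right (Nat.mul_le_mul_left _ ?_) _)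
          omega
      _ = 4 * c * Nat.log 2 j + (7 * c + d) := by ring
      _ ≤ 4 * c * Nat.log 2 j + Nat.log 2 j := Nat.add_le_add_left e4 _
      _ = (4 * c + 1) * Nat.log 2 j := by ring
      _ ≤ (4 * c + 1) * Nat.log 2 (Nat.log 2 (Nat.log 2 x.length)) := Nat.mul_le_mul_left _ e3
  · have e1 := h₂ x.length (by omega)
    have e2 := hk x.length (by omega)
    refine lt_of_lt_of_le (Nat.lt_of_lt_of_le ?_ e2) e1
    rw [Polynomial.eval_comp]
    refine Nat.lt_succ_of_le (eval_mono qq ?_)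
    simp only [Polynomial.eval_add, Polynomial.eval_mul, Polynomial.eval_C, Polynomial.eval_X]
    have e3 : j.size ≤ j := Poly.size_le_self j
    have e4 : r.eval (2 ^ 2 ^ j) ≤ r.eval x.length := eval_mono r hN
    omega

end Pool.Agent.J6H43.KS
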