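import Pool.Agent.J6H43.KS.Defs
import Pool.Agent.J6H27.KS.Main

/-!
# Padding by double negations, on the level of strings
-/

set_option autoImplicit false
set_option maxHeartbeats 4000000

namespace Pool.Agent.J6H43.KS

open Pool.Agent.NPC hiding SAT
open Pool.Agent.H695R2 Pool.Agent.H695R2.IsoImp Pool.Agent.J6H27.KS Turing Filter

/-- the code of one negation sign -/
def w0 : List Bool := [true, true, false, false]

theorem bits_neg (φ : BF) : bits (BF.neg φ) = w0 ++ bits φ := rfl

theorem negs_succ (m : ℕ) : negs (m + 1) = w0 ++ (w0 ++ negs m) := by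
  unfold negs
  rw [List.replicate_succ, List.flatten_cons]
  rfl

theorem length_negs (m : ℕ) : (negs m).length = 8 * m := by
  induction m with
  | zero => rfl
  | succ m ih =>
    rw [negs_succ, List.length_append, List.length_append, ih]
    simp only [w0, List.length_cons, List.length_nil]
    ring

theorem length_padD (x : List Bool) : (padD x).length = 8 * D x.length + x.length := by
  unfold padD
  rw [List.length_append, length_negs]

theorem le_D (n : ℕ) : n ≤ D n := by
  unfold D
  exact (Nat.le_pow_clog (by norm_num) n).trans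
    (Nat.pow_le_pow_right (by norm_num) (Nat.le_pow_clog (by norm_num) _))

theorem D_le {n : ℕ} (hn : 2 ≤ n) : D n ≤ n ^ 2 := by
  unfold D
  cases hj : Nat.clog 2 (Nat.clog 2 n) with
  | zero =>
    have : 2 ^ 2 ^ 0 = 2 := rfl
    rw [this]
    nlinarith
  | succ j =>
    have h1 : 2 ^ j < Nat.clog 2 n := by
      apply (Nat.lt_clog_iff_pow_lt (by norm_num)).1
      omega
    have h2 : 2 ^ 2 ^ j < n := (Nat.lt_clog_iff_pow_lt (by norm_num)).1 h1
    have h3 : 2 ^ 2 ^ (j + 1) = (2 ^ 2 ^ j) ^ 2 := by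
      rw [← pow_mul, pow_succ]
    rw [h3]
    exact Nat.pow_le_pow_left h2.le 2

theorem le_clog_clog {j n : ℕ} (h : 2 ^ 2 ^ j ≤ n) : j ≤ Nat.clog 2 (Nat.clog 2 n) := by
  have h1 := Nat.clog_mono_right 2 h
  rw [Nat.clog_pow 2 _ (by norm_num)] at h1
  have h2 := Nat.clog_mono_right 2 h1
  rwa [Nat.clog_pow 2 _ (by norm_num)] at h2

theorem exists_neg {x : List Bool} {ψ : BF} (h : bits ψ = w0 ++ x) : ∃ φ, ψ = BF.neg φ ∧ bits φ = x := by
  have key : ∀ (t : Option Bool ⊕ ℕ) (l : List (Option Bool ⊕ ℕ)),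
      bits (t :: l) = w0 ++ x → t = Sum.inl none ∧ bits l = x := by
    intro t l hl
    have h1 : (true :: ((toT t).enc ++ bits l)) =
        true :: ((toT (Sum.inl none : Option Bool ⊕ ℕ)).enc ++ x) := hl
    rw [List.cons.injEq] at h1
    obtain ⟨h2, h3⟩ := T.enc_append_inj _ _ _ _ h1.2
    exact ⟨TEnc.inj h2, h3⟩
  have h' : bits ψ.polish = w0 ++ x := h
  cases ψ with
  | var n =>
    have := (key _ _ h').1
    cases this
  | neg f => exact ⟨f, rfl, (key _ _ h').2⟩
  | and f g =>
    have := (key _ _ h').1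
    cases this
  | or f g =>
    have := (key _ _ h').1
    cases this

theorem neg_append_mem (x : List Bool) : w0 ++ (w0 ++ x) ∈ SAT ↔ x ∈ SAT := by
  constructor
  · rintro ⟨ψ, hψ, hs⟩
    obtain ⟨φ, rfl, h2⟩ := exists_neg hψ
    obtain ⟨φ', rfl, h3⟩ := exists_neg h2
    refine ⟨φ', h3, ?_⟩
    obtain ⟨σ, hσ⟩ := hs
    refine ⟨σ, ?_⟩
    simpa [BF.eval] using hσ
  · rintro ⟨φ, rfl, σ, hσ⟩
    refine ⟨BF.neg (BF.neg φ), rfl, σ, ?_⟩
    simpa [BF.eval] using hσ

theorem negs_append_mem (x : List Bool) (m : ℕ) : negs m ++ x ∈ SAT ↔ x ∈ SAT := by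
  induction m with
  | zero => rfl
  | succ m ih =>
    rw [negs_succ, List.append_assoc, List.append_assoc, neg_append_mem, ih]

theorem poly_negs {α : Type} [TEnc α] {m : α → ℕ} (hm : UPoly m) : Poly (fun a => negs (m a)) := by
  have h1 : Poly (fun a => List.replicate (m a) ()) := hm
  have h2 : Poly (fun a => (List.replicate (m a) ()).flatMap
      (fun _ => [true, true, false, false, true, true, false, false])) := by
    fun_prop
  refine h2.congr fun a => ?_
  unfold negs
  rw [List.flatMap_def, List.map_replicate]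

end Pool.Agent.J6H43.KS
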