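import Pool.Agent.H592R3.Collapse
import Pool.Agent.Y601.SSE.Ac0

/-!
# Circuits of constant depth which compute parity through literals
-/

set_option autoImplicit false
set_option maxHeartbeats 4000000

namespace Pool.Agent.J6H43.KS

open Finset DomAC0 H568R2

section

variable {I : Type} [Fintype I] [DecidableEq I] {J : Type} [Fintype J]

open Classical in
/-- If a circuit of depth at most `j` computes, through inputs which depend on one variable each, a
function which changes whenever one variable is flipped, then there are few variables or many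
gates. -/
theorem parity_lb (C : Circuit J) (σ : (I → Bool) → (J → Bool))
    (hσ : ∀ p, Junta 1 (fun x => σ x p)) {j h : ℕ} (hh : 1 ≤ h) (hd : C.depth ≤ j)
    (hflip : ∀ x i, C.eval (σ (Pool.Agent.Y601.SSE.flip i x)) ≠ C.eval (σ x))
    (hcond : j * (C.size * (Fintype.card J + C.size + 1)) * (24 * h) ^ j ≤ 2 ^ h) :
    Fintype.card I ≤ 2 * h * (24 * h) ^ j := by
  obtain ⟨q, hq⟩ : ∃ q : ℝ, q = 1 / (24 * h) := ⟨_, rfl⟩
  have hs0 : (1 : ℝ) ≤ h := by exact_mod_cast hh
  have hq0 : 0 < q := by rw [hq]; positivity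
  have hq1 : q ≤ 1 / 3 := by
    rw [hq, div_le_div_iff₀ (by positivity) (by norm_num)]
    linarith
  have hbad := H592R3.collapse C σ hσ hq0.le hq1 hh j
  have h1 : (12 * h * q : ℝ) = 1 / 2 := by rw [hq]; field_simp; norm_num
  rw [h1] at hbad
  have hqh : 0 < q ^ j := by positivity
  have h4 : q ^ j * (24 * h) ^ j = 1 := by
    rw [← mul_pow, hq]
    have : (1 : ℝ) / (24 * h) * (24 * h) = 1 := by field_simp
    rw [this, one_pow]
  have h2 : (j : ℝ) * ((C.size * (Fintype.card J + C.size + 1) : ℕ) : ℝ) * (1 / 2) ^ (h + 1) ≤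
      q ^ j / 2 := by
    have h3 : ((j * (C.size * (Fintype.card J + C.size + 1)) * (24 * h) ^ j : ℕ) : ℝ) ≤
        ((2 ^ h : ℕ) : ℝ) := by exact_mod_cast hcond
    generalize C.size * (Fintype.card J + C.size + 1) = M at h3 ⊢
    push_cast at h3
    have h5 : ((1 : ℝ) / 2) ^ (h + 1) * 2 ^ h = 1 / 2 := by
      rw [pow_succ, mul_right_comm, ← mul_pow]
      norm_num
    have h6 : (0 : ℝ) < (24 * h) ^ j := by positivity
    have h7 : (j : ℝ) * M * (1 / 2) ^ (h + 1) * (24 * h) ^ j ≤ 1 / 2 := by
      calc (j : ℝ) * M * (1 / 2) ^ (h + 1) * (24 * h) ^ j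
          = (1 / 2) ^ (h + 1) * (j * M * (24 * h) ^ j) := by ring
        _ ≤ (1 / 2) ^ (h + 1) * 2 ^ h := mul_le_mul_of_nonneg_left h3 (by positivity)
        _ = 1 / 2 := h5
    calc (j : ℝ) * M * (1 / 2) ^ (h + 1)
        = (j : ℝ) * M * (1 / 2) ^ (h + 1) * (24 * h) ^ j * q ^ j := by
          rw [mul_assoc _ ((24 * h : ℝ) ^ j), mul_comm ((24 * h : ℝ) ^ j), h4, mul_one]
      _ ≤ 1 / 2 * q ^ j := mul_le_mul_of_nonneg_right h7 hqh.le
      _ = q ^ j / 2 := by ring
  have hbad2 := hbad.trans h2
  -- the expectation of the number of stars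
  have hstars : Ex (wq (q ^ j)) (fun ρ : Restr I =>
      ((univ.filter fun i => ρ i = none).card : ℝ)) = Fintype.card I * q ^ j := by
    have e1 : (fun ρ : Restr I => ((univ.filter fun i => ρ i = none).card : ℝ)) =
        fun ρ : Restr I => ∑ i, if ρ i = none then (1 : ℝ) else 0 := by
      funext ρ
      rw [card_filter]
      push_cast
      rfl
    have e3 : ∀ i : I, Ex (wq (q ^ j)) (fun ρ : Restr I => if ρ i = none then (1 : ℝ) else 0) =
        q ^ j := by
      intro i
      rw [Ex_resample (wq_sum (q ^ j)) _ i]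
      have h1 : (fun ω : Restr I => ∑ a, wq (q ^ j) a *
          (if Function.update ω i a i = none then (1 : ℝ) else 0)) = fun _ => q ^ j := by
        funext ω
        rw [Fintype.sum_option, Fintype.sum_bool]
        simp [wq]
      rw [h1, Ex_const (wq_sum (q ^ j))]
    rw [e1, Ex_sum univ (wq (q ^ j)) fun i (ρ : Restr I) => if ρ i = none then (1 : ℝ) else 0]
    rw [sum_congr rfl fun i _ => e3 i, sum_const, nsmul_eq_mul, card_univ]
  have hw : ∀ a, 0 ≤ wq (q ^ j) a :=
    wq_nonneg hqh.le (pow_le_one₀ hq0.le (by linarith))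
  -- a good restriction has few stars
  have hgood : ∀ ρ : Restr I, H592R3.Good C σ h j ρ → (univ.filter fun i => ρ i = none).card ≤ h := by
    intro ρ hρ
    obtain ⟨A, hA, hAy⟩ := H592R3.node_cert C σ hσ hh hρ C.output hd _ (fun _ => true) rfl
    refine le_trans (card_le_card ?_) hA
    intro i hi
    rw [mem_filter] at hi
    by_contra hni
    have h8 := hAy (Pool.Agent.Y601.SSE.flip i (fun _ => true)) (fun l hl => by
      have hne : l ≠ i := fun h => hni (h ▸ hl)
      unfold Pool.Agent.Y601.SSE.flip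
      rw [Function.update_of_ne hne])
    apply hflip (ov ρ (fun _ => true)) i
    rw [← Pool.Agent.Y601.SSE.ov_flip ρ i hi.2]
    exact h8
  have hpt : ∀ ρ : Restr I, ((univ.filter fun i => ρ i = none).card : ℝ) ≤
      (Fintype.card I : ℝ) * (if ¬ H592R3.Good C σ h j ρ then (1 : ℝ) else 0) + h := by
    intro ρ
    by_cases hS : H592R3.Good C σ h j ρ
    · simp only [hS, not_true, if_false, mul_zero, zero_add]
      exact_mod_cast hgood ρ hS
    · simp only [hS, not_false_iff, if_true, mul_one]
      have : ((univ.filter fun i => ρ i = none).card : ℝ) ≤ Fintype.card I := by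
        exact_mod_cast card_le_univ _
      have h0 : (0 : ℝ) ≤ h := Nat.cast_nonneg _
      linarith
  have h8 := Ex_mono hw hpt
  rw [hstars, Ex_add (wq (q ^ j)) (fun ρ : Restr I => (Fintype.card I : ℝ) *
      (if ¬ H592R3.Good C σ h j ρ then (1 : ℝ) else 0)) fun _ => (h : ℝ),
    Ex_smul, Ex_const (wq_sum _)] at h8
  have hN : (0 : ℝ) ≤ Fintype.card I := Nat.cast_nonneg _
  have h9 := mul_le_mul_of_nonneg_left hbad2 hN
  have h10 : (Fintype.card I : ℝ) * q ^ j ≤ 2 * h := by linarith
  have h11 : (Fintype.card I : ℝ) ≤ 2 * h * (24 * h) ^ j := by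
    have h12 : (0 : ℝ) < (24 * h) ^ j := by positivity
    have h13 := mul_le_mul_of_nonneg_right h10 h12.le
    rwa [mul_assoc, h4, mul_one] at h13
  exact_mod_cast h11

end

end Pool.Agent.J6H43.KS
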