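import Pool.Agent.J6H43.KS.Comm
import Pool.Agent.J6H43.KS.Par

/-!
# Separators need large circuits of constant depth
-/

set_option autoImplicit false
set_option maxHeartbeats 4000000

namespace Pool.Agent.J6H43.KS

open Pool.Agent.NPC hiding SAT
open Pool.Agent.H695R2 Pool.Agent.H695R2.IsoImp Pool.Agent.J6H27.KS Turing Filter
open DomAC0 H568R2

/-! ### Parity as a satisfiability problem -/

/-- the parity of `α 0, …, α (m - 1)` -/
def pr (α : ℕ → Bool) : ℕ → Bool
  | 0 => false
  | m + 1 => xor (pr α m) (α m)

/-- `y ⊕ z` -/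
def xo (y z : ℕ) : BF :=
  BF.or (BF.and (BF.var y) (BF.neg (BF.var z))) (BF.and (BF.neg (BF.var y)) (BF.var z))

/-- `y' ↔ y ⊕ z` -/
def xr (y z y' : ℕ) : BF :=
  BF.or (BF.and (BF.var y') (xo y z)) (BF.and (BF.neg (BF.var y')) (BF.neg (xo y z)))

theorem eval_xr (σ : ℕ → Bool) (y z y' : ℕ) :
    (xr y z y').eval σ = true ↔ σ y' = xor (σ y) (σ z) := by
  simp only [xr, xo, BF.eval]
  cases σ y <;> cases σ z <;> cases σ y' <;> simp

/-- the computation of the parity of the first variables -/
def psi (r : ℕ) : ℕ → BF
  | 0 => BF.and (BF.neg (BF.var r)) (BF.var (r + r))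
  | m + 1 => BF.and (xr (r + m) m (r + m + 1)) (psi r m)

theorem eval_psi (σ : ℕ → Bool) (r m : ℕ) : (psi r m).eval σ = true ↔
    (σ r = false ∧ σ (r + r) = true) ∧ ∀ i < m, σ (r + i + 1) = xor (σ (r + i)) (σ i) := by
  induction m with
  | zero => simp [psi, BF.eval]
  | succ m ih =>
    simp only [psi, BF.eval, Bool.and_eq_true, eval_xr, ih]
    constructor
    · rintro ⟨h1, h2, h3⟩
      refine ⟨h2, fun i hi => ?_⟩
      rcases Nat.lt_succ_iff_lt_or_eq.1 hi with h | h
      · exact h3 i h
      · rw [h, h1]
    · rintro ⟨h1, h2⟩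
      exact ⟨h2 m (Nat.lt_succ_self m), h1, fun i hi => h2 i (Nat.lt_succ_of_lt hi)⟩

/-- the code of the formula expressing that the parity of `α 0, …, α (r - 1)` is odd -/
def ew (α : ℕ → Bool) (r : ℕ) : List Bool := xw α r ++ bits (psi r r)

theorem ew_mem (α : ℕ → Bool) (r : ℕ) : ew α r ∈ SAT ↔ pr α r = true := by
  have h : ew α r = bits (BF.and (conj α r) (psi r r)) := by
    unfold ew xw
    have h : bits (BF.and (conj α r) (psi r r)) =
        bits ((Sum.inl (some true) :: (conj α r).polish) ++ (psi r r).polish) := rfl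
    rw [h, bits_append]
    rfl
  rw [h]
  refine bits_mem_lang.trans ?_
  constructor
  · rintro ⟨σ, hσ⟩
    simp only [BF.eval, Bool.and_eq_true, eval_conj, eval_psi] at hσ
    obtain ⟨h1, ⟨h2, h3⟩, h4⟩ := hσ
    have key : ∀ m ≤ r, σ (r + m) = pr α m := by
      intro m
      induction m with
      | zero => intro _; exact h2
      | succ m ih =>
        intro hm
        rw [← add_assoc, h4 m hm, ih (by omega), h1 m hm]
        rfl
    rw [← key r le_rfl, h3]
  · intro hp
    refine ⟨fun n => if n < r then α n else pr α (n - r), ?_⟩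
    simp only [BF.eval, Bool.and_eq_true, eval_conj, eval_psi]
    refine ⟨fun i hi => by simp [hi], ⟨by simp [pr], by simp [hp]⟩, fun i hi => ?_⟩
    have e1 : ¬ (r + i + 1 < r) := by omega
    have e2 : ¬ (r + i < r) := by omega
    have e3 : r + i + 1 - r = i + 1 := by omega
    have e4 : r + i - r = i := by omega
    simp only [e1, e2, e3, e4, hi, if_true, if_false]
    rfl

theorem pr_flip (α β : ℕ → Bool) (i : ℕ) (hi : β i = !(α i)) (h : ∀ l, l ≠ i → β l = α l) (m : ℕ) :
    pr β m = xor (pr α m) (decide (i < m)) := by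
  induction m with
  | zero => simp [pr]
  | succ m ih =>
    simp only [pr, ih]
    by_cases hm : m = i
    · subst hm
      rw [hi]
      cases pr α m <;> cases α m <;> simp
    · rw [h m hm]
      have e : decide (i < m + 1) = decide (i < m) := by
        rw [decide_eq_decide]
        omega
      rw [e]
      cases pr α m <;> cases α m <;> cases decide (i < m) <;> rfl

/-! ### Lengths -/

theorem length_tk_xr (y z y' : ℕ) :
    (tk (xr y z y').polish).length = 140 + 2 * sz y' + 4 * sz y + 4 * sz z := by
  simp [xr, xo, BF.polish, tk, bits_length]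
  ring

/-- a bound for the length of the code of `psi` -/
theorem length_psi (r m : ℕ) (hm : m ≤ r) :
    (tk (psi r m).polish).length ≤ 24 + 16 * r + m * (158 + 80 * r) := by
  induction m with
  | zero =>
    have e : (tk (psi r 0).polish).length = 22 + sz r + sz (r + r) := by
      simp [psi, BF.polish, tk, bits_length]
      ring
    have f1 := sz_nat_le r
    have f2 := Poly.size_le_self r
    have f3 := sz_nat_le (r + r)
    have f4 := Poly.size_le_self (r + r)
    omega
  | succ m ih =>
    have e : (tk (psi r (m + 1)).polish).length =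
        8 + (tk (xr (r + m) m (r + m + 1)).polish).length + (tk (psi r m).polish).length := by
      have e1 : (psi r (m + 1)).polish =
        Sum.inl (some true) :: ((xr (r + m) m (r + m + 1)).polish ++ (psi r m).polish) := rfl
      rw [e1, tk_cons, tk_append, List.length_append, List.length_append]
      have e3 : (true :: bits (Sum.inl (some true) : Option Bool ⊕ ℕ)).length = 8 := rfl
      rw [e3]
      ring
    have ih' := ih (by omega)
    rw [e, length_tk_xr]
    have f1 := sz_nat_le (r + m)
    have f2 := Poly.size_le_self (r + m)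
    have f3 := sz_nat_le m
    have f4 := Poly.size_le_self m
    have f5 := sz_nat_le (r + m + 1)
    have f6 := Poly.size_le_self (r + m + 1)
    have e4 : (m + 1) * (158 + 80 * r) = m * (158 + 80 * r) + (158 + 80 * r) := by ring
    rw [e4]
    omega

/-- the length of `ew α r` -/
def PL (r : ℕ) : ℕ := 8 + cl r + (bits (psi r r)).length

theorem length_ew (α : ℕ → Bool) (r : ℕ) : (ew α r).length = PL r := by
  unfold ew PL
  rw [List.length_append, length_xw]

theorem PL_le (r : ℕ) (hr : 1 ≤ r) : PL r ≤ 400 * r ^ 2 := by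
  have h := bits_append (psi r r).polish []
  rw [List.append_nil] at h
  have h2 : bits (psi r r) = bits (psi r r).polish := rfl
  have h3 : (bits (psi r r)).length = (tk (psi r r).polish).length + 1 := by
    rw [h2, h, List.length_append]
    rfl
  have h4 := length_psi r r le_rfl
  have h5 := cl_le r
  unfold PL
  rw [h3]
  nlinarith

theorem le_PL (r : ℕ) : r ≤ PL r := by
  unfold PL
  have := le_cl r
  omega

end Pool.Agent.J6H43.KS
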